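import Mathlib
import Pool.Agent.Q77.Cos.Bad

/-!
Random digits in base `s`: few of the first digits given the others lead to large exponential
sums in a base coprime to `s`.
-/

set_option autoImplicit false

open Finset Filter Topology MeasureTheory
open scoped ENNReal

namespace Pool.Agent.Q77.Few

open Pool.Agent.Q77.Cos
open Pool.Agent.H332R2.Lit (e e_add norm_e)

/-- numerator of the first `n` digits -/
def head (s : ℕ) (d : ℕ → Fin s) : ℕ → ℕ
  | 0 => 0
  | n + 1 => s * head s d n + d n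

lemma head_lt (s : ℕ) (d : ℕ → Fin s) (n : ℕ) : head s d n < s ^ n := by
  induction n with
  | zero => simp [head]
  | succ n ih =>
    rw [head, pow_succ']
    have h1 := (d n).isLt
    have h2 : s * (head s d n + 1) ≤ s * s ^ n := Nat.mul_le_mul_left _ ih
    rw [mul_add, mul_one] at h2
    omega

lemma head_inj (s : ℕ) (d d' : ℕ → Fin s) (n : ℕ) (h : head s d n = head s d' n) :
    ∀ i < n, d i = d' i := by
  induction n with
  | zero => intro i hi; omega
  | succ n ih =>
    rw [head, head] at h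
    have hs : 0 < s := (d 0).pos
    have h1 : (s * head s d n + d n) % s = (s * head s d' n + d' n) % s := by rw [h]
    rw [Nat.mul_add_mod, Nat.mul_add_mod, Nat.mod_eq_of_lt (d n).isLt,
      Nat.mod_eq_of_lt (d' n).isLt] at h1
    rw [h1] at h
    have h2 : head s d n = head s d' n := Nat.eq_of_mul_eq_mul_left hs (Nat.add_right_cancel h)
    intro i hi
    rcases Nat.lt_succ_iff_lt_or_eq.1 hi with h3 | rfl
    · exact ih h2 i h3
    · exact Fin.ext h1

lemma head_congr (s : ℕ) (d d' : ℕ → Fin s) (n : ℕ) (h : ∀ i < n, d i = d' i) :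
    head s d n = head s d' n := by
  induction n with
  | zero => rfl
  | succ n ih =>
    rw [head, head, ih fun i hi => h i (by omega), h n (by omega)]

lemma sum_head (s : ℕ) (hs : 1 ≤ s) (d : ℕ → Fin s) (n : ℕ) :
    ∑ i ∈ range n, Real.ofDigitsTerm d i = head s d n / (s : ℝ) ^ n := by
  have hs0 : (0 : ℝ) < s := by exact_mod_cast hs
  induction n with
  | zero => simp [head]
  | succ n ih =>
    rw [sum_range_succ, ih, head, Real.ofDigitsTerm]
    push_cast
    field_simp
    ring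

lemma split (s : ℕ) (hs : 1 ≤ s) (d : ℕ → Fin s) (n : ℕ) :
    Real.ofDigits d = ((s : ℝ) ^ n)⁻¹ * Real.ofDigits (fun i => d (i + n)) +
      (head s d n : ℝ) / (s : ℝ) ^ n := by
  rw [Real.ofDigits_eq_sum_add_ofDigits d n, sum_head s hs d n, add_comm]

lemma cont_W (b : ℕ) (h : ℤ) (N : ℕ) : Continuous (W b h N) := by
  unfold W Pool.Agent.H332R2.Lit.e
  fun_prop

/-- the boundedly many bad heads -/
lemma few (b s : ℕ) (hb : 2 ≤ b) (hs : 2 ≤ s) (hcop : Nat.Coprime b s) (h : ℤ) (hh : h ≠ 0)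
    (n N : ℕ) (hN : s ^ n ≤ N) (ε : ℝ) (hε : 0 < ε) (x : ℝ) :
    (((range (s ^ n)).filter (fun k : ℕ => ε * N < ‖W b h N (x + k / (s : ℝ) ^ n)‖)).card : ℝ) ≤
      2 * kap b s * |(h : ℝ)| / ε ^ 2 := by
  have hNpos : 0 < N := lt_of_lt_of_le (Nat.pow_pos (by omega)) hN
  have hN0 : (0 : ℝ) < N := by exact_mod_cast hNpos
  have h1 := moment_pow b s hb (by omega) hcop n N hN h hh x
  set S := (range (s ^ n)).filter (fun k : ℕ => ε * N < ‖W b h N (x + k / (s : ℝ) ^ n)‖) with hS
  have h2 : (S.card : ℝ) * (ε * N) ^ 2 ≤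
      ∑ k ∈ range (s ^ n), ‖W b h N (x + k / (s : ℝ) ^ n)‖ ^ 2 := by
    calc (S.card : ℝ) * (ε * N) ^ 2 = ∑ _k ∈ S, (ε * N) ^ 2 := by
          rw [Finset.sum_const, nsmul_eq_mul]
      _ ≤ ∑ k ∈ S, ‖W b h N (x + k / (s : ℝ) ^ n)‖ ^ 2 := by
          refine Finset.sum_le_sum fun k hk => ?_
          have h2 := (Finset.mem_filter.1 hk).2
          exact pow_le_pow_left₀ (by positivity) h2.le 2
      _ ≤ _ := Finset.sum_le_sum_of_subset_of_nonneg (Finset.filter_subset _ _)
          fun k _ _ => by positivity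
  rw [le_div_iff₀ (by positivity)]
  have h3 : (S.card : ℝ) * ε ^ 2 * (N : ℝ) ^ 2 ≤ 2 * kap b s * |(h : ℝ)| * (N : ℝ) ^ 2 := by
    calc _ = (S.card : ℝ) * (ε * N) ^ 2 := by ring
      _ ≤ _ := h2.trans h1
  exact le_of_mul_le_mul_right h3 (by positivity)

/-- the first digits given the later ones are not concentrated -/
def Spread (s : ℕ) (μ : Measure (ℕ → Fin s)) (p : ℕ → ℝ≥0∞) : Prop :=
  ∀ (n : ℕ) (u : ℕ → Fin s) (T : Set (ℕ → Fin s)), MeasurableSet T →
    μ {d | (∀ i < n, d i = u i) ∧ (fun i => d (i + n)) ∈ T} ≤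
      p n * μ {d | (fun i => d (i + n)) ∈ T}

lemma meas_tail (s n : ℕ) : Measurable (fun (d : ℕ → Fin s) (i : ℕ) => d (i + n)) := by
  fun_prop

lemma meas_big (s b : ℕ) (h : ℤ) (N : ℕ) (c a e : ℝ) :
    MeasurableSet {t : ℕ → Fin s | c < ‖W b h N (a * Real.ofDigits t + e)‖} := by
  apply IsOpen.measurableSet
  apply isOpen_lt continuous_const
  exact ((cont_W b h N).comp ((continuous_const.mul Real.continuous_ofDigits).add
    continuous_const)).norm

/-- probability of a large sum -/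
lemma bad_measure (b s : ℕ) (hb : 2 ≤ b) (hs : 2 ≤ s) (hcop : Nat.Coprime b s) (h : ℤ)
    (hh : h ≠ 0) (μ : Measure (ℕ → Fin s)) [IsProbabilityMeasure μ] (p : ℕ → ℝ≥0∞)
    (hp : Spread s μ p) (n N : ℕ) (hN : s ^ n ≤ N) (ε : ℝ) (hε : 0 < ε) :
    μ {d | ε * N < ‖W b h N (Real.ofDigits d)‖} ≤
      ENNReal.ofReal (2 * kap b s * |(h : ℝ)| / ε ^ 2) * p n := by
  classical
  set T : ℕ → Set (ℕ → Fin s) := fun k =>
    {t | ε * N < ‖W b h N (((s : ℝ) ^ n)⁻¹ * Real.ofDigits t + k / (s : ℝ) ^ n)‖} with hT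
  have hTm : ∀ k, MeasurableSet (T k) := fun k => meas_big s b h N _ _ _
  have hsub : {d : ℕ → Fin s | ε * N < ‖W b h N (Real.ofDigits d)‖} ⊆
      ⋃ k ∈ range (s ^ n), {d | head s d n = k ∧ (fun i => d (i + n)) ∈ T k} := by
    intro d hd
    simp only [Set.mem_iUnion]
    refine ⟨head s d n, mem_range.2 (head_lt s d n), rfl, ?_⟩
    rw [hT, Set.mem_ofPred_eq, ← split s (by omega) d n]
    exact hd
  have hone : ∀ k ∈ range (s ^ n), μ {d | head s d n = k ∧ (fun i => d (i + n)) ∈ T k} ≤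
      p n * μ {d | (fun i => d (i + n)) ∈ T k} := by
    intro k _
    by_cases hk : ∃ u : ℕ → Fin s, head s u n = k
    · obtain ⟨u, hu⟩ := hk
      refine le_trans (measure_mono ?_) (hp n u (T k) (hTm k))
      rintro d ⟨h1, h2⟩
      exact ⟨head_inj s d u n (h1.trans hu.symm), h2⟩
    · have : {d | head s d n = k ∧ (fun i => d (i + n)) ∈ T k} = ∅ := by
        ext d
        simp only [Set.mem_ofPred_eq, Set.mem_empty_iff_false, iff_false]
        rintro ⟨h1, _⟩
        exact hk ⟨d, h1⟩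
      rw [this, measure_empty]
      exact zero_le
  have hsum : ∑ k ∈ range (s ^ n), μ {d | (fun i => d (i + n)) ∈ T k} ≤
      ENNReal.ofReal (2 * kap b s * |(h : ℝ)| / ε ^ 2) := by
    have h1 : ∀ k ∈ range (s ^ n), μ {d | (fun i => d (i + n)) ∈ T k} =
        ∫⁻ d, {d : ℕ → Fin s | (fun i => d (i + n)) ∈ T k}.indicator
          (fun _ => (1 : ℝ≥0∞)) d ∂μ := by
      intro k _
      have hm : MeasurableSet {d : ℕ → Fin s | (fun i => d (i + n)) ∈ T k} :=
        meas_tail s n (hTm k)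
      rw [lintegral_indicator hm]
      simp
    rw [Finset.sum_congr rfl h1, ← lintegral_finsetSum]
    · calc _ ≤ ∫⁻ _d : ℕ → Fin s, ENNReal.ofReal (2 * kap b s * |(h : ℝ)| / ε ^ 2) ∂μ := by
            apply lintegral_mono
            intro d
            have h4 := few b s hb hs hcop h hh n N hN ε hε
              (((s : ℝ) ^ n)⁻¹ * Real.ofDigits (fun i => d (i + n)))
            have h5 : ∑ k ∈ range (s ^ n), {d : ℕ → Fin s | (fun i => d (i + n)) ∈ T k}.indicator
                (fun _ => (1 : ℝ≥0∞)) d =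
                (((range (s ^ n)).filter (fun k : ℕ => ε * N <
                  ‖W b h N (((s : ℝ) ^ n)⁻¹ * Real.ofDigits (fun i => d (i + n)) +
                    k / (s : ℝ) ^ n)‖)).card : ℝ≥0∞) := by
              rw [Finset.card_filter]
              push_cast
              refine Finset.sum_congr rfl fun k _ => ?_
              simp only [Set.indicator_apply, Set.mem_ofPred_eq, hT]
            simp only
            rw [h5, ← ENNReal.ofReal_natCast]
            exact ENNReal.ofReal_le_ofReal h4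
        _ = _ := by simp
    · intro k _
      have hm : MeasurableSet {d : ℕ → Fin s | (fun i => d (i + n)) ∈ T k} :=
        meas_tail s n (hTm k)
      exact measurable_const.indicator hm
  calc _ ≤ μ (⋃ k ∈ range (s ^ n), {d | head s d n = k ∧ (fun i => d (i + n)) ∈ T k}) :=
        measure_mono hsub
    _ ≤ ∑ k ∈ range (s ^ n), μ {d | head s d n = k ∧ (fun i => d (i + n)) ∈ T k} :=
        measure_biUnion_finset_le _ _
    _ ≤ ∑ k ∈ range (s ^ n), p n * μ {d | (fun i => d (i + n)) ∈ T k} := Finset.sum_le_sum hone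
    _ = p n * ∑ k ∈ range (s ^ n), μ {d | (fun i => d (i + n)) ∈ T k} := by rw [Finset.mul_sum]
    _ ≤ p n * ENNReal.ofReal (2 * kap b s * |(h : ℝ)| / ε ^ 2) := by gcongr
    _ = _ := mul_comm _ _

end Pool.Agent.Q77.Few
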