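import Mathlib
import Pool.Agent.Q77.Few.Heads

/-!
Borel-Cantelli: summable concentrations give equidistribution.
-/

set_option autoImplicit false

open Finset Filter Topology MeasureTheory
open scoped ENNReal

namespace Pool.Agent.Q77.Few

open Pool.Agent.Q77.Cos
open Pool.Agent.H332R2.Lit (e e_add norm_e)

/-- test places between `s ^ n` and `s ^ (n + 1)` -/
def scale (s R n r : ℕ) : ℕ := s ^ n + r * s ^ n / R

lemma scale_near (s R n N : ℕ) (hs : 2 ≤ s) (hR : 1 ≤ R) (h1 : s ^ n ≤ N) (h2 : N < s ^ (n + 1)) :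
    ∃ r < s * R, scale s R n r ≤ N ∧ (N : ℝ) ≤ scale s R n r + N / R + 1 := by
  have hq : 0 < s ^ n := Nat.pow_pos (by omega)
  set q := s ^ n with hqd
  refine ⟨(N - q) * R / q, ?_, ?_, ?_⟩
  · rw [Nat.div_lt_iff_lt_mul hq]
    have h3 : N - q < s * q := by
      rw [pow_succ', ← hqd] at h2
      omega
    calc (N - q) * R < s * q * R := Nat.mul_lt_mul_of_pos_right h3 (by omega)
      _ = s * R * q := by ring
  · unfold scale
    rw [← hqd]
    have h3 : (N - q) * R / q * q / R ≤ N - q := by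
      apply Nat.div_le_of_le_mul
      rw [mul_comm R]
      exact Nat.div_mul_le_self _ _
    omega
  · unfold scale
    set r := (N - q) * R / q with hr
    have h3 : (N - q) * R < (r + 1) * q := by
      have := Nat.lt_div_mul_add (a := (N - q) * R) hq
      rw [← hr] at this
      rw [add_mul, one_mul]
      exact this
    have h4 : r * q < (r * q / R + 1) * R := by
      have := Nat.lt_div_mul_add (a := r * q) (by omega : 0 < R)
      rw [add_mul, one_mul]
      exact this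
    have hR0 : (0 : ℝ) < R := by exact_mod_cast hR
    have h5 : ((N : ℝ) - q) * R < ((r : ℝ) + 1) * q := by
      have h6 : (((N - q) * R : ℕ) : ℝ) < (((r + 1) * q : ℕ) : ℝ) := by exact_mod_cast h3
      push_cast [Nat.cast_sub h1] at h6
      exact h6
    have h7 : (r : ℝ) * q < (((r * q / R : ℕ) : ℝ) + 1) * R := by exact_mod_cast h4
    have h8 : (q : ℝ) ≤ N := by exact_mod_cast h1
    have h9 : ((s ^ n : ℕ) : ℝ) = q := by rw [hqd]
    rw [← hqd]
    push_cast
    have h10 : ((N : ℝ) - q - ((r * q / R : ℕ) : ℝ) - 1) * R ≤ N := by nlinarith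
    rw [← le_div_iff₀ hR0] at h10
    linarith

lemma W_step (b : ℕ) (h : ℤ) (N' N : ℕ) (hN : N' ≤ N) (y : ℝ) :
    ‖W b h N y‖ ≤ ‖W b h N' y‖ + ((N : ℝ) - N') := by
  unfold W
  have h1 : range N = range N' ∪ Ico N' N := by
    rw [range_eq_Ico, range_eq_Ico, Ico_union_Ico_eq_Ico (Nat.zero_le _) hN]
  have h2 : Disjoint (range N') (Ico N' N) := by
    rw [range_eq_Ico]
    exact Ico_disjoint_Ico_consecutive 0 N' N
  rw [h1, sum_union h2]
  refine (norm_add_le _ _).trans ?_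
  apply add_le_add le_rfl
  calc ‖∑ m ∈ Ico N' N, e (h * ((b : ℝ) ^ m * y))‖
      ≤ ∑ m ∈ Ico N' N, ‖e (h * ((b : ℝ) ^ m * y))‖ := norm_sum_le _ _
    _ = ∑ _m ∈ Ico N' N, (1 : ℝ) := by simp [norm_e]
    _ = (N : ℝ) - N' := by
        rw [sum_const, Nat.card_Ico, nsmul_eq_mul, mul_one, Nat.cast_sub hN]

/-- the orbit of `y` is equidistributed (Weyl) -/
def Wn (b : ℕ) (y : ℝ) : Prop :=
  ∀ h : ℤ, h ≠ 0 → ∀ δ : ℝ, 0 < δ → ∀ᶠ N : ℕ in atTop, ‖W b h N y‖ ≤ δ * N

theorem ae_weyl (s : ℕ) (hs : 2 ≤ s) (μ : Measure (ℕ → Fin s)) [IsProbabilityMeasure μ]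
    (p : ℕ → ℝ≥0∞) (hp : Spread s μ p) (hsum : ∑' n, p n ≠ ∞) :
    ∀ᵐ d ∂μ, ∀ b : ℕ, 2 ≤ b → b.Coprime s → Wn b (Real.ofDigits d) := by
  rw [ae_all_iff]
  intro b
  by_cases hb : 2 ≤ b ∧ b.Coprime s
  swap
  · exact Filter.Eventually.of_forall fun d h1 h2 => absurd ⟨h1, h2⟩ hb
  obtain ⟨hb2, hcop⟩ := hb
  have key : ∀ (h : ℤ) (R : ℕ), h ≠ 0 → 1 ≤ R → ∀ᵐ d ∂μ, ∀ᶠ n : ℕ in atTop,
      ∀ r < s * R, ‖W b h (scale s R n r) (Real.ofDigits d)‖ ≤
        1 / (R : ℝ) * (scale s R n r : ℕ) := by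
    intro h R hh hR
    have hR0 : (0 : ℝ) < R := by exact_mod_cast hR
    set G : ℕ → Set (ℕ → Fin s) := fun n => ⋃ r ∈ range (s * R),
      {d | 1 / (R : ℝ) * (scale s R n r : ℕ) < ‖W b h (scale s R n r) (Real.ofDigits d)‖} with hG
    set K : ℝ≥0∞ := ENNReal.ofReal (2 * kap b s * |(h : ℝ)| / (1 / (R : ℝ)) ^ 2) with hK
    have h1 : ∀ n, μ (G n) ≤ (s * R : ℕ) * K * p n := by
      intro n
      calc μ (G n) ≤ ∑ r ∈ range (s * R), μ {d | 1 / (R : ℝ) * (scale s R n r : ℕ) <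
              ‖W b h (scale s R n r) (Real.ofDigits d)‖} := measure_biUnion_finset_le _ _
        _ ≤ ∑ _r ∈ range (s * R), K * p n := by
            apply Finset.sum_le_sum
            intro r _
            exact bad_measure b s hb2 hs hcop h hh μ p hp n _ (by unfold scale; exact Nat.le_add_right _ _) _
              (by positivity)
        _ = _ := by rw [sum_const, card_range, nsmul_eq_mul, mul_assoc]
    have h2 : ∑' n, μ (G n) ≠ ∞ := by
      apply ne_top_of_le_ne_top _ (ENNReal.tsum_le_tsum h1)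
      rw [ENNReal.tsum_mul_left]
      exact ENNReal.mul_ne_top (ENNReal.mul_ne_top (ENNReal.natCast_ne_top _)
        ENNReal.ofReal_ne_top) hsum
    filter_upwards [ae_eventually_notMem h2] with d hd
    refine hd.mono fun n hn r hr => ?_
    by_contra hcon
    push Not at hcon
    apply hn
    simp only [hG, Set.mem_iUnion]
    exact ⟨r, mem_range.2 hr, hcon⟩
  have key2 : ∀ᵐ d ∂μ, ∀ (h : ℤ) (R : ℕ), h ≠ 0 → 1 ≤ R → ∀ᶠ n : ℕ in atTop,
      ∀ r < s * R, ‖W b h (scale s R n r) (Real.ofDigits d)‖ ≤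
        1 / (R : ℝ) * (scale s R n r : ℕ) := by
    rw [ae_all_iff]
    intro h
    rw [ae_all_iff]
    intro R
    by_cases hh : h ≠ 0 ∧ 1 ≤ R
    · filter_upwards [key h R hh.1 hh.2] with d hd _ _
      exact hd
    · exact Filter.Eventually.of_forall fun d h1 h2 => absurd ⟨h1, h2⟩ hh
  filter_upwards [key2] with d hd _ _ h hh δ hδ
  obtain ⟨R, hR⟩ := exists_nat_gt (3 / δ)
  have hR0 : (0 : ℝ) < R := lt_trans (by positivity) hR
  have hR1 : 1 ≤ R := by exact_mod_cast hR0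
  obtain ⟨n0, hn0⟩ := eventually_atTop.1 (hd h R hh hR1)
  filter_upwards [eventually_ge_atTop (s ^ n0), eventually_ge_atTop R, eventually_ge_atTop 1]
    with N hN1 hN2 hN3
  set n := Nat.log s N with hn
  have h1 : s ^ n ≤ N := Nat.pow_log_le_self s (by omega)
  have h2 : N < s ^ (n + 1) := Nat.lt_pow_succ_log_self (by omega) N
  have h3 : n0 ≤ n := by
    by_contra hcon
    push Not at hcon
    have h4 : s ^ (n + 1) ≤ s ^ n0 := Nat.pow_le_pow_right (by omega) hcon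
    omega
  obtain ⟨r, hr, h4, h5⟩ := scale_near s R n N hs hR1 h1 h2
  have h6 := hn0 n h3 r hr
  have h7 := W_step b h (scale s R n r) N h4 (Real.ofDigits d)
  have h8 : ((scale s R n r : ℕ) : ℝ) ≤ N := by exact_mod_cast h4
  have h9 : (R : ℝ) ≤ N := by exact_mod_cast hN2
  have h10 : 1 / (R : ℝ) * (scale s R n r : ℕ) ≤ 1 / (R : ℝ) * N := by gcongr
  have h11 : (1 : ℝ) ≤ N / R := by rw [le_div_iff₀ hR0]; linarith
  have h12 : (3 : ℝ) / R ≤ δ := by
    rw [div_lt_iff₀ hδ] at hR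
    rw [div_le_iff₀ hR0]
    linarith
  have h13 : (3 : ℝ) / R * N ≤ δ * N := by gcongr
  have h14 : (3 : ℝ) / R * N = 1 / R * N + N / R + N / R := by ring
  linarith

end Pool.Agent.Q77.Few
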