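import Mathlib
import Pool.Agent.Q77.Few.AS

/-!
Exponential sums and frequencies of words.
-/

set_option autoImplicit false

open Finset Filter Topology

namespace Pool.Agent.Q77.Few

open Pool.Agent.Q77.Cos
open Pool.Agent.H332R2.Lit (e e_add norm_e)

/-- normality in base `b`: every word of length `k` has frequency `b ^ (-k)` -/
def Nrm (b : ℕ) (y : ℝ) : Prop :=
  ∀ k : ℕ, 0 < k → ∀ w : Fin k → Fin b,
    Tendsto (fun n : ℕ => (((range n).filter (fun i : ℕ => ∀ j : Fin k,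
      ⌊y * (b : ℝ) ^ (i + 1 + (j : ℕ))⌋ % b = ((w j : ℕ) : ℤ))).card : ℝ) / n)
      atTop (𝓝 (1 / (b : ℝ) ^ k))

lemma floor_step (b : ℕ) (hb : 1 ≤ b) (z : ℝ) (k : ℕ) :
    ⌊z * (b : ℝ) ^ (k + 1)⌋ = b * ⌊z * (b : ℝ) ^ k⌋ + ⌊z * (b : ℝ) ^ (k + 1)⌋ % b := by
  have hb0 : (0 : ℝ) < b := by exact_mod_cast hb
  have h1 : ⌊z * (b : ℝ) ^ k⌋ = ⌊z * (b : ℝ) ^ (k + 1)⌋ / b := by
    rw [← Int.floor_div_natCast]
    congr 1
    field_simp
    ring
  rw [h1]
  exact (Int.mul_ediv_add_emod _ _).symm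

lemma floor_head (b : ℕ) (hb : 1 ≤ b) (z : ℝ) (D : ℕ → Fin b) (k : ℕ)
    (hD : ∀ j < k, ⌊z * (b : ℝ) ^ (j + 1)⌋ % b = ((D j : ℕ) : ℤ)) :
    (head b D k : ℤ) = ⌊z * (b : ℝ) ^ k⌋ - ⌊z⌋ * (b : ℤ) ^ k := by
  induction k with
  | zero => simp [head]
  | succ k ih =>
    rw [head, floor_step b hb z k, hD k (by omega)]
    push_cast
    rw [ih fun j hj => hD j (by omega)]
    ring

/-- digits as a sequence -/
noncomputable def digs (b : ℕ) (hb : 1 ≤ b) (z : ℝ) (j : ℕ) : Fin b :=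
  ⟨(⌊z * (b : ℝ) ^ (j + 1)⌋ % b).toNat, by
    have h1 : 0 ≤ ⌊z * (b : ℝ) ^ (j + 1)⌋ % (b : ℤ) := Int.emod_nonneg _ (by omega)
    have h2 : ⌊z * (b : ℝ) ^ (j + 1)⌋ % (b : ℤ) < b := Int.emod_lt_of_pos _ (by omega)
    omega⟩

lemma digs_eq (b : ℕ) (hb : 1 ≤ b) (z : ℝ) (j : ℕ) :
    ⌊z * (b : ℝ) ^ (j + 1)⌋ % b = ((digs b hb z j : ℕ) : ℤ) := by
  have h1 : 0 ≤ ⌊z * (b : ℝ) ^ (j + 1)⌋ % (b : ℤ) := Int.emod_nonneg _ (by omega)
  unfold digs
  simp only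
  rw [Int.toNat_of_nonneg h1]

/-- a word as an interval -/
lemma word_iff (b : ℕ) (hb : 1 ≤ b) (z : ℝ) (k : ℕ) (w : Fin k → Fin b) (w' : ℕ → Fin b)
    (hw : ∀ j : Fin k, w' j = w j) :
    (∀ j : Fin k, ⌊z * (b : ℝ) ^ ((j : ℕ) + 1)⌋ % b = ((w j : ℕ) : ℤ)) ↔
      (head b w' k : ℝ) / (b : ℝ) ^ k ≤ Int.fract z ∧
        Int.fract z < ((head b w' k : ℝ) + 1) / (b : ℝ) ^ k := by
  have hb0 : (0 : ℝ) < (b : ℝ) ^ k := by
    have : (0 : ℝ) < b := by exact_mod_cast hb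
    positivity
  have h0 := floor_head b hb z (digs b hb z) k fun j _ => digs_eq b hb z j
  rw [div_le_iff₀ hb0, lt_div_iff₀ hb0]
  have hfr : Int.fract z * (b : ℝ) ^ k = z * (b : ℝ) ^ k - ⌊z⌋ * (b : ℝ) ^ k := by
    rw [Int.fract]; ring
  constructor
  · intro h
    have h1 : head b w' k = head b (digs b hb z) k := by
      apply head_congr
      intro i hi
      have h2 := h ⟨i, hi⟩
      rw [digs_eq b hb z] at h2
      have h3 : digs b hb z i = w ⟨i, hi⟩ := Fin.ext (by exact_mod_cast h2)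
      rw [h3]
      exact hw ⟨i, hi⟩
    rw [h1, hfr]
    have h2 : ((head b (digs b hb z) k : ℕ) : ℝ) =
        (⌊z * (b : ℝ) ^ k⌋ : ℝ) - ⌊z⌋ * (b : ℝ) ^ k := by exact_mod_cast h0
    rw [h2]
    constructor
    · linarith [Int.floor_le (z * (b : ℝ) ^ k)]
    · linarith [Int.lt_floor_add_one (z * (b : ℝ) ^ k)]
  · rintro ⟨h1, h2⟩
    rw [hfr] at h1 h2
    have h3 : ⌊z * (b : ℝ) ^ k⌋ = ⌊z⌋ * (b : ℤ) ^ k + head b w' k := by
      rw [Int.floor_eq_iff]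
      push_cast
      constructor <;> linarith
    rw [h3] at h0
    have h4 : head b (digs b hb z) k = head b w' k := by
      have : (head b (digs b hb z) k : ℤ) = head b w' k := by rw [h0]; ring
      exact_mod_cast this
    have h5 := head_inj b _ _ k h4
    intro j
    rw [digs_eq b hb z, h5 j j.isLt, hw j]

theorem normal_of_weyl (b : ℕ) (hb : 2 ≤ b) (y : ℝ) (H : Wn b y) : Nrm b y := by
  classical
  intro k _ w
  set w' : ℕ → Fin b := fun j => if h : j < k then w ⟨j, h⟩ else ⟨0, by omega⟩ with hw'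
  have hw : ∀ j : Fin k, w' j = w j := by
    intro j
    rw [hw']
    simp [j.isLt]
  have hbk : (0 : ℝ) < (b : ℝ) ^ k := by
    have : (0 : ℝ) < b := by exact_mod_cast (by omega : 0 < b)
    positivity
  set α : ℝ := (head b w' k : ℝ) / (b : ℝ) ^ k with hα
  set β : ℝ := ((head b w' k : ℝ) + 1) / (b : ℝ) ^ k with hβ
  have hα0 : 0 ≤ α := by rw [hα]; positivity
  have hαβ : α ≤ β := by rw [hα, hβ]; gcongr; linarith
  have hβ1 : β ≤ 1 := by
    rw [hβ, div_le_one hbk]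
    have := head_lt b w' k
    exact_mod_cast this
  have hlen : β - α = 1 / (b : ℝ) ^ k := by rw [hα, hβ]; ring
  have hset : ∀ n : ℕ, (range n).filter (fun i : ℕ => ∀ j : Fin k,
      ⌊y * (b : ℝ) ^ (i + 1 + (j : ℕ))⌋ % b = ((w j : ℕ) : ℤ)) =
      (range n).filter (fun l : ℕ => α ≤ Int.fract ((b : ℝ) ^ l * y) ∧
        Int.fract ((b : ℝ) ^ l * y) < β) := by
    intro n
    apply Finset.filter_congr
    intro i _
    rw [← word_iff b (by omega) ((b : ℝ) ^ i * y) k w w' hw]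
    apply forall_congr'
    intro j
    rw [show (b : ℝ) ^ i * y * (b : ℝ) ^ ((j : ℕ) + 1) = y * (b : ℝ) ^ (i + 1 + (j : ℕ)) by ring]
  rw [Metric.tendsto_atTop]
  intro ε hε
  obtain ⟨m, hm⟩ := exists_nat_gt (12 / ε)
  have hm0 : (0 : ℝ) < m := lt_trans (by positivity) hm
  have hm1 : 1 ≤ m := by exact_mod_cast hm0
  have hev : ∀ᶠ N : ℕ in atTop, ∀ h ∈ (Ioo (-((m ^ 3 : ℕ) : ℤ)) ((m ^ 3 : ℕ) : ℤ)).erase 0,
      ‖W b h N y‖ ≤ ε / (3 * (m : ℝ) ^ 3) * N := by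
    rw [Filter.eventually_all_finset]
    intro h hh
    rw [mem_erase] at hh
    exact H h hh.1 _ (by positivity)
  obtain ⟨N0, hN0⟩ := eventually_atTop.1 (hev.and (eventually_ge_atTop 1))
  refine ⟨N0, fun N hN => ?_⟩
  obtain ⟨hN1, hN2⟩ := hN0 N hN
  have hNR : (0 : ℝ) < N := by exact_mod_cast hN2
  have h1 := Pool.Agent.TH869.LPD.disc m hm1 (fun l => (b : ℝ) ^ l * y) N
    (ε / (3 * (m : ℝ) ^ 3) * N) (by positivity) (fun h hh0 hh1 => by
      apply hN1 h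
      rw [mem_erase, mem_Ioo]
      exact ⟨hh0, (abs_lt.1 hh1).1, (abs_lt.1 hh1).2⟩) α β hα0 hαβ hβ1
  rw [hset N, Real.dist_eq]
  have h2 : (m : ℝ) ^ 3 * (ε / (3 * (m : ℝ) ^ 3) * N) = ε * N / 3 := by field_simp
  rw [h2, hlen] at h1
  have h3 : 4 * (N : ℝ) / m ≤ ε * N / 3 := by
    rw [div_lt_iff₀ hε] at hm
    rw [div_le_div_iff₀ hm0 (by norm_num)]
    nlinarith
  have h4 : ∀ c : ℝ, c / N - 1 / (b : ℝ) ^ k = (c - 1 / (b : ℝ) ^ k * N) / N := by
    intro c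
    field_simp
  rw [h4, abs_div, abs_of_pos hNR, div_lt_iff₀ hNR]
  refine lt_of_le_of_lt h1 ?_
  have : 0 < ε * N := by positivity
  linarith

/-- integers can be added -/
lemma W_int (b : ℕ) (h : ℤ) (N : ℕ) (y : ℝ) (z : ℤ) : W b h N (z + y) = W b h N y := by
  unfold W
  refine sum_congr rfl fun m _ => ?_
  have : (h : ℝ) * ((b : ℝ) ^ m * (z + y)) = ((h * ((b : ℤ) ^ m * z) : ℤ) : ℝ) +
      h * ((b : ℝ) ^ m * y) := by
    push_cast
    ring
  rw [this, e_add, e_int, one_mul]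

lemma wn_int (b : ℕ) (y : ℝ) (z : ℤ) (H : Wn b y) : Wn b (z + y) := by
  intro h hh δ hδ
  filter_upwards [H h hh δ hδ] with N hN
  rwa [W_int]

/-- such numbers are irrational in the weak sense needed -/
lemma wn_not_int (b : ℕ) (y : ℝ) (H : Wn b y) (q : ℕ) (hq : 1 ≤ q) (z : ℤ) :
    y * q ≠ z := by
  intro hyz
  obtain ⟨N, hN1, hN2⟩ := ((H q (by exact_mod_cast (by omega : q ≠ 0)) (1 / 2) (by norm_num)).and
    (eventually_ge_atTop 1)).exists
  have h1 : W b q N y = N := by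
    unfold W
    have : ∀ m ∈ range N, e (((q : ℤ) : ℝ) * ((b : ℝ) ^ m * y)) = 1 := by
      intro m _
      have h2 : (((q : ℤ) : ℝ) * ((b : ℝ) ^ m * y)) = (((b : ℤ) ^ m * z : ℤ) : ℝ) := by
        push_cast
        rw [← hyz]
        ring
      rw [h2, e_int]
    rw [sum_congr rfl this]
    simp
  rw [h1, Complex.norm_natCast] at hN1
  have : (1 : ℝ) ≤ N := by exact_mod_cast hN2
  linarith

/-- the digits of the number with given digits -/
lemma digits_back (s : ℕ) (hs : 2 ≤ s) (d : ℕ → Fin s) (z : ℤ)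
    (H : ∀ (q : ℕ) (v : ℤ), 1 ≤ q → Real.ofDigits d * q ≠ v) (j : ℕ) :
    ⌊((z : ℝ) + Real.ofDigits d) * (s : ℝ) ^ (j + 1)⌋ % s = ((d j : ℕ) : ℤ) := by
  have hs0 : (0 : ℝ) < (s : ℝ) ^ (j + 1) := by
    have : (0 : ℝ) < s := by exact_mod_cast (by omega : 0 < s)
    positivity
  have h1 := split s (by omega) d (j + 1)
  have h2 : Real.ofDigits (fun i => d (i + (j + 1))) < 1 := by
    rcases lt_or_eq_of_le (Real.ofDigits_le_one (fun i => d (i + (j + 1)))) with h | h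
    · exact h
    · exfalso
      apply H (s ^ (j + 1)) (1 + head s d (j + 1)) (Nat.one_le_pow _ _ (by omega))
      rw [h1, h]
      push_cast
      field_simp
  have h3 := Real.ofDigits_nonneg (fun i => d (i + (j + 1)))
  have h4 : ⌊((z : ℝ) + Real.ofDigits d) * (s : ℝ) ^ (j + 1)⌋ =
      z * (s : ℤ) ^ (j + 1) + head s d (j + 1) := by
    rw [Int.floor_eq_iff]
    have h5 : ((z : ℝ) + Real.ofDigits d) * (s : ℝ) ^ (j + 1) =
        z * (s : ℝ) ^ (j + 1) + head s d (j + 1) + Real.ofDigits (fun i => d (i + (j + 1))) := by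
      rw [h1]
      field_simp
      ring
    rw [h5]
    push_cast
    constructor <;> linarith
  rw [h4, head]
  push_cast
  have h6 : z * (s : ℤ) ^ (j + 1) + (s * (head s d j : ℤ) + ((d j : ℕ) : ℤ)) =
      ((d j : ℕ) : ℤ) + s * (z * (s : ℤ) ^ j + head s d j) := by ring
  rw [h6, Int.add_mul_emod_self_left]
  apply Int.emod_eq_of_lt (by omega)
  exact_mod_cast (d j).isLt

end Pool.Agent.Q77.Few
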