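import Mathlib
import Pool.Agent.Q77.Few.Norm
import Pool.Agent.Q77.Cos.Words

/-!
The same for bases `b` which are coprime to a part `Q` of `s`.
-/

set_option autoImplicit false

open Finset Filter Topology MeasureTheory
open scoped ENNReal

namespace Pool.Agent.Q77.Few

open Pool.Agent.Q77.Cos
open Pool.Agent.H332R2.Lit (e e_add norm_e)

/-- the first digits given the later ones are not concentrated modulo `Q ^ n` -/
def SpreadMod (s Q : ℕ) (μ : Measure (ℕ → Fin s)) (p : ℕ → ℝ≥0∞) : Prop :=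
  ∀ (n r : ℕ) (T : Set (ℕ → Fin s)), MeasurableSet T →
    μ {d | head s d n ≡ r [MOD Q ^ n] ∧ (fun i => d (i + n)) ∈ T} ≤
      p n * μ {d | (fun i => d (i + n)) ∈ T}

lemma W_split (b : ℕ) (h : ℤ) (L N : ℕ) (y : ℝ) :
    W b h (L + N) y = W b h L y + W b h N ((b : ℝ) ^ L * y) := by
  unfold W
  rw [sum_range_add]
  congr 1
  refine sum_congr rfl fun m _ => ?_
  congr 1
  rw [pow_add]
  ring

lemma W_bound (b : ℕ) (h : ℤ) (N : ℕ) (y : ℝ) : ‖W b h N y‖ ≤ N := by
  have h1 := W_step b h 0 N (Nat.zero_le _) y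
  have h2 : W b h 0 y = 0 := by simp [W]
  rw [h2, norm_zero] at h1
  simpa using h1

/-- probability of a large sum -/
lemma bad_mod (b s q a1 w Q : ℕ) (hb : 2 ≤ b) (hs : 2 ≤ s) (hq : 2 ≤ q) (hsq : s = q * a1)
    (hcop : Nat.Coprime b q) (ha1 : a1 ∣ b ^ w) (hQ : Q ∣ q) (h : ℤ)
    (hh : h ≠ 0) (μ : Measure (ℕ → Fin s)) [IsProbabilityMeasure μ] (p : ℕ → ℝ≥0∞)
    (hp : SpreadMod s Q μ p) (n N : ℕ) (hN : q ^ n ≤ N) (ε : ℝ) (hε : 0 < ε) :
    μ {d | ε * N < ‖W b h N ((b : ℝ) ^ (w * n) * Real.ofDigits d)‖} ≤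
      ENNReal.ofReal (2 * kap b q * |(h : ℝ)| / ε ^ 2) * p n := by
  classical
  obtain ⟨c, hc⟩ := ha1
  have hbw : 0 < b ^ w := Nat.pow_pos (by omega)
  have hc0 : 0 < c := by
    rcases Nat.eq_zero_or_pos c with h1 | h1
    · rw [h1, mul_zero] at hc; omega
    · exact h1
  have ha0 : 0 < a1 := by
    rcases Nat.eq_zero_or_pos a1 with h1 | h1
    · rw [h1, zero_mul] at hc; omega
    · exact h1
  have hccop : Nat.Coprime c q :=
    (Nat.Coprime.pow_left w hcop).coprime_dvd_left ⟨a1, by rw [hc]; ring⟩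
  have hqn : 0 < q ^ n := Nat.pow_pos (by omega)
  have hqR : (0 : ℝ) < (q : ℝ) ^ n := by exact_mod_cast hqn
  set X : ℝ := (b : ℝ) ^ (w * n) * ((s : ℝ) ^ n)⁻¹ with hX
  set T : ℕ → Set (ℕ → Fin s) := fun k =>
    {t | ε * N < ‖W b h N (X * Real.ofDigits t + k / (q : ℝ) ^ n)‖} with hT
  have hTm : ∀ k, MeasurableSet (T k) := fun k => meas_big s b h N _ _ _
  have hW : ∀ d : ℕ → Fin s, W b h N ((b : ℝ) ^ (w * n) * Real.ofDigits d) =
      W b h N (X * Real.ofDigits (fun i => d (i + n)) +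
        ((head s d n * c ^ n % q ^ n : ℕ) : ℝ) / (q : ℝ) ^ n) := by
    intro d
    have h1 : (b : ℝ) ^ (w * n) * Real.ofDigits d =
        ((head s d n * c ^ n / q ^ n : ℕ) : ℤ) + (X * Real.ofDigits (fun i => d (i + n)) +
        ((head s d n * c ^ n % q ^ n : ℕ) : ℝ) / (q : ℝ) ^ n) := by
      rw [split s (by omega) d n]
      have h2 : (head s d n : ℝ) * (c : ℝ) ^ n = (q : ℝ) ^ n * ((head s d n * c ^ n / q ^ n : ℕ) : ℝ) +
          ((head s d n * c ^ n % q ^ n : ℕ) : ℝ) := by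
        have := Nat.div_add_mod (head s d n * c ^ n) (q ^ n)
        exact_mod_cast this.symm
      have h3 : (b : ℝ) ^ (w * n) = (a1 : ℝ) ^ n * (c : ℝ) ^ n := by
        rw [pow_mul, ← mul_pow]
        congr 1
        exact_mod_cast hc
      have h4 : (s : ℝ) ^ n = (q : ℝ) ^ n * (a1 : ℝ) ^ n := by
        rw [← mul_pow]
        congr 1
        exact_mod_cast hsq
      have ha0R : (0 : ℝ) < (a1 : ℝ) ^ n := by
        have : (0 : ℝ) < a1 := by exact_mod_cast ha0
        positivity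
      have h5 : (b : ℝ) ^ (w * n) * ((head s d n : ℝ) / (s : ℝ) ^ n) =
          ((head s d n : ℝ) * (c : ℝ) ^ n) / (q : ℝ) ^ n := by
        rw [h3, h4]
        field_simp
      rw [mul_add, h5, h2, hX, Int.cast_natCast]
      field_simp
      ring
    rw [h1, W_int]
  have hsub : {d : ℕ → Fin s | ε * N < ‖W b h N ((b : ℝ) ^ (w * n) * Real.ofDigits d)‖} ⊆
      ⋃ k ∈ range (q ^ n), {d | head s d n * c ^ n % q ^ n = k ∧ (fun i => d (i + n)) ∈ T k} := by
    intro d hd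
    simp only [Set.mem_iUnion]
    refine ⟨head s d n * c ^ n % q ^ n, mem_range.2 (Nat.mod_lt _ hqn), rfl, ?_⟩
    rw [hT, Set.mem_ofPred_eq, ← hW d]
    exact hd
  have hone : ∀ k ∈ range (q ^ n),
      μ {d | head s d n * c ^ n % q ^ n = k ∧ (fun i => d (i + n)) ∈ T k} ≤
      p n * μ {d | (fun i => d (i + n)) ∈ T k} := by
    intro k _
    by_cases hk : ∃ u : ℕ → Fin s, head s u n * c ^ n % q ^ n = k
    · obtain ⟨u, hu⟩ := hk
      refine le_trans (measure_mono ?_) (hp n (head s u n) (T k) (hTm k))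
      rintro d ⟨h1, h2⟩
      refine ⟨?_, h2⟩
      have h3 : head s d n * c ^ n ≡ head s u n * c ^ n [MOD q ^ n] := h1.trans hu.symm
      have h4 : head s d n ≡ head s u n [MOD q ^ n] :=
        Nat.ModEq.cancel_right_of_coprime (Nat.Coprime.pow n n hccop.symm) h3
      exact h4.of_dvd (pow_dvd_pow_of_dvd hQ n)
    · have : {d | head s d n * c ^ n % q ^ n = k ∧ (fun i => d (i + n)) ∈ T k} = ∅ := by
        ext d
        simp only [Set.mem_ofPred_eq, Set.mem_empty_iff_false, iff_false]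
        rintro ⟨h1, _⟩
        exact hk ⟨d, h1⟩
      rw [this, measure_empty]
      exact zero_le
  have hsum : ∑ k ∈ range (q ^ n), μ {d | (fun i => d (i + n)) ∈ T k} ≤
      ENNReal.ofReal (2 * kap b q * |(h : ℝ)| / ε ^ 2) := by
    have hm : ∀ k, MeasurableSet {d : ℕ → Fin s | (fun i => d (i + n)) ∈ T k} :=
      fun k => meas_tail s n (hTm k)
    have h1 : ∀ k ∈ range (q ^ n), μ {d | (fun i => d (i + n)) ∈ T k} =
        ∫⁻ d, {d : ℕ → Fin s | (fun i => d (i + n)) ∈ T k}.indicator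
          (fun _ => (1 : ℝ≥0∞)) d ∂μ := by
      intro k _
      rw [lintegral_indicator (hm k)]
      simp
    rw [Finset.sum_congr rfl h1, ← lintegral_finsetSum]
    · calc _ ≤ ∫⁻ _d : ℕ → Fin s, ENNReal.ofReal (2 * kap b q * |(h : ℝ)| / ε ^ 2) ∂μ := by
            apply lintegral_mono
            intro d
            have h4 := few b q hb hq hcop h hh n N hN ε hε
              (X * Real.ofDigits (fun i => d (i + n)))
            have h5 : ∑ k ∈ range (q ^ n), {d : ℕ → Fin s | (fun i => d (i + n)) ∈ T k}.indicator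
                (fun _ => (1 : ℝ≥0∞)) d =
                (((range (q ^ n)).filter (fun k : ℕ => ε * N <
                  ‖W b h N (X * Real.ofDigits (fun i => d (i + n)) +
                    k / (q : ℝ) ^ n)‖)).card : ℝ≥0∞) := by
              rw [Finset.card_filter]
              push_cast
              refine Finset.sum_congr rfl fun k _ => ?_
              simp only [Set.indicator_apply, Set.mem_ofPred_eq, hT]
            simp only
            rw [h5, ← ENNReal.ofReal_natCast]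
            exact ENNReal.ofReal_le_ofReal h4
        _ = _ := by simp
    · intro k _
      exact measurable_const.indicator (hm k)
  calc _ ≤ μ (⋃ k ∈ range (q ^ n),
        {d | head s d n * c ^ n % q ^ n = k ∧ (fun i => d (i + n)) ∈ T k}) := measure_mono hsub
    _ ≤ ∑ k ∈ range (q ^ n),
        μ {d | head s d n * c ^ n % q ^ n = k ∧ (fun i => d (i + n)) ∈ T k} :=
        measure_biUnion_finset_le _ _
    _ ≤ ∑ k ∈ range (q ^ n), p n * μ {d | (fun i => d (i + n)) ∈ T k} := Finset.sum_le_sum hone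
    _ = p n * ∑ k ∈ range (q ^ n), μ {d | (fun i => d (i + n)) ∈ T k} := by rw [Finset.mul_sum]
    _ ≤ p n * ENNReal.ofReal (2 * kap b q * |(h : ℝ)| / ε ^ 2) := by gcongr
    _ = _ := mul_comm _ _

lemma near_scale (q C R N : ℕ) (hq : 0 < q) (hR : 1 ≤ R) (h1 : q ≤ N) (h2 : N < C * q) :
    ∃ r < C * R, q + r * q / R ≤ N ∧ (N : ℝ) ≤ (q + r * q / R : ℕ) + N / R + 1 := by
  refine ⟨(N - q) * R / q, ?_, ?_, ?_⟩
  · rw [Nat.div_lt_iff_lt_mul hq]
    have h3 : N - q < C * q := by omega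
    calc (N - q) * R < C * q * R := Nat.mul_lt_mul_of_pos_right h3 (by omega)
      _ = C * R * q := by ring
  · have h3 : (N - q) * R / q * q / R ≤ N - q := by
      apply Nat.div_le_of_le_mul
      rw [mul_comm R]
      exact Nat.div_mul_le_self _ _
    omega
  · set r := (N - q) * R / q with hr
    have h3 : (N - q) * R < (r + 1) * q := by
      have := Nat.lt_div_mul_add (a := (N - q) * R) hq
      rw [← hr] at this
      rw [add_mul, one_mul]
      exact this
    have h4 : r * q < (r * q / R + 1) * R := by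
      have := Nat.lt_div_mul_add (a := r * q) (by omega : 0 < R)
      rw [add_mul, one_mul]
      exact this
    have hR0 : (0 : ℝ) < R := by exact_mod_cast hR
    have h5 : ((N : ℝ) - q) * R < ((r : ℝ) + 1) * q := by
      have h6 : (((N - q) * R : ℕ) : ℝ) < (((r + 1) * q : ℕ) : ℝ) := by exact_mod_cast h3
      push_cast [Nat.cast_sub h1] at h6
      exact h6
    have h7 : (r : ℝ) * q < (((r * q / R : ℕ) : ℝ) + 1) * R := by exact_mod_cast h4
    have h8 : (q : ℝ) ≤ N := by exact_mod_cast h1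
    rw [Nat.cast_add]
    have h10 : ((N : ℝ) - q - ((r * q / R : ℕ) : ℝ) - 1) * R ≤ N := by nlinarith
    rw [← le_div_iff₀ hR0] at h10
    linarith

lemma ev_pow (A w : ℕ) : ∀ᶠ n : ℕ in atTop, A * (w * n + 1) ≤ 2 ^ n := by
  have h1 := tendsto_pow_const_div_const_pow_of_one_lt 1 (by norm_num : (1 : ℝ) < 2)
  have h2 : (0 : ℝ) < 1 / ((A : ℝ) * (w + 1) + 1) := by positivity
  filter_upwards [h1.eventually (gt_mem_nhds h2), eventually_ge_atTop 1] with n hn1 hn2
  have h3 : (0 : ℝ) < (2 : ℝ) ^ n := by positivity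
  rw [pow_one, div_lt_div_iff₀ h3 (by positivity)] at hn1
  have h4 : (1 : ℝ) ≤ n := by exact_mod_cast hn2
  have h5 : ((A * (w * n + 1) : ℕ) : ℝ) ≤ ((2 ^ n : ℕ) : ℝ) := by
    push_cast
    have h6 : (A : ℝ) * (w * n + 1) ≤ n * (A * (w + 1) + 1) := by
      have hA : (0 : ℝ) ≤ A := Nat.cast_nonneg _
      have h7 : (A : ℝ) * 1 ≤ A * n := by gcongr
      nlinarith
    linarith
  exact_mod_cast h5

theorem ae_mod (s : ℕ) (hs : 2 ≤ s) (Q : ℕ) (hQ2 : 2 ≤ Q) (hQs : Q ∣ s)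
    (μ : Measure (ℕ → Fin s)) [IsProbabilityMeasure μ]
    (p : ℕ → ℝ≥0∞) (hp : SpreadMod s Q μ p) (hsum : ∑' n, p n ≠ ∞) :
    ∀ᵐ d ∂μ, ∀ b : ℕ, 2 ≤ b → b.Coprime Q → Wn b (Real.ofDigits d) := by
  rw [ae_all_iff]
  intro b
  by_cases hb : 2 ≤ b ∧ b.Coprime Q
  swap
  · exact Filter.Eventually.of_forall fun d h1 h2 => absurd ⟨h1, h2⟩ hb
  obtain ⟨hb2, hbQ⟩ := hb
  obtain ⟨q, a1, w, hsq, hcop, ha1⟩ := decomp b s (by omega)
  have hQq : Q ∣ q := by
    have h1 : Nat.Coprime Q a1 :=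
      ((Nat.Coprime.pow_left w hbQ).coprime_dvd_left ha1).symm
    apply Nat.Coprime.dvd_of_dvd_mul_right h1
    rw [← hsq]
    exact hQs
  have hq0 : 0 < q := by
    rcases Nat.eq_zero_or_pos q with h | h
    · rw [h, zero_mul] at hsq; omega
    · exact h
  have hq2 : 2 ≤ q := hQ2.trans (Nat.le_of_dvd hq0 hQq)
  have hqs : q ≤ s := Nat.le_of_dvd (by omega) ⟨a1, hsq⟩
  have key : ∀ (h : ℤ) (R : ℕ), h ≠ 0 → 1 ≤ R → ∀ᵐ d ∂μ, ∀ᶠ n : ℕ in atTop,
      ∀ r < s ^ 2 * R, ‖W b h (s ^ n + r * s ^ n / R)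
        ((b : ℝ) ^ (w * n) * Real.ofDigits d)‖ ≤
        1 / (R : ℝ) * (s ^ n + r * s ^ n / R : ℕ) := by
    intro h R hh hR
    have hR0 : (0 : ℝ) < R := by exact_mod_cast hR
    set G : ℕ → Set (ℕ → Fin s) := fun n => ⋃ r ∈ range (s ^ 2 * R),
      {d | 1 / (R : ℝ) * (s ^ n + r * s ^ n / R : ℕ) < ‖W b h (s ^ n + r * s ^ n / R)
        ((b : ℝ) ^ (w * n) * Real.ofDigits d)‖} with hG
    set K : ℝ≥0∞ := ENNReal.ofReal (2 * kap b q * |(h : ℝ)| / (1 / (R : ℝ)) ^ 2) with hK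
    have h1 : ∀ n, μ (G n) ≤ (s ^ 2 * R : ℕ) * K * p n := by
      intro n
      calc μ (G n) ≤ ∑ r ∈ range (s ^ 2 * R), μ {d | 1 / (R : ℝ) * (s ^ n + r * s ^ n / R : ℕ) <
              ‖W b h (s ^ n + r * s ^ n / R) ((b : ℝ) ^ (w * n) * Real.ofDigits d)‖} :=
              measure_biUnion_finset_le _ _
        _ ≤ ∑ _r ∈ range (s ^ 2 * R), K * p n := by
            apply Finset.sum_le_sum
            intro r _
            have h2 : q ^ n ≤ s ^ n := Nat.pow_le_pow_left hqs n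
            exact bad_mod b s q a1 w Q hb2 hs hq2 hsq hcop ha1 hQq h hh μ p hp n _
              (h2.trans (Nat.le_add_right _ _)) _ (by positivity)
        _ = _ := by rw [sum_const, card_range, nsmul_eq_mul, mul_assoc]
    have h2 : ∑' n, μ (G n) ≠ ∞ := by
      apply ne_top_of_le_ne_top _ (ENNReal.tsum_le_tsum h1)
      rw [ENNReal.tsum_mul_left]
      exact ENNReal.mul_ne_top (ENNReal.mul_ne_top (ENNReal.natCast_ne_top _)
        ENNReal.ofReal_ne_top) hsum
    filter_upwards [ae_eventually_notMem h2] with d hd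
    refine hd.mono fun n hn r hr => ?_
    by_contra hcon
    push Not at hcon
    apply hn
    simp only [hG, Set.mem_iUnion]
    exact ⟨r, mem_range.2 hr, hcon⟩
  have key2 : ∀ᵐ d ∂μ, ∀ (h : ℤ) (R : ℕ), h ≠ 0 → 1 ≤ R → ∀ᶠ n : ℕ in atTop,
      ∀ r < s ^ 2 * R, ‖W b h (s ^ n + r * s ^ n / R)
        ((b : ℝ) ^ (w * n) * Real.ofDigits d)‖ ≤
        1 / (R : ℝ) * (s ^ n + r * s ^ n / R : ℕ) := by
    rw [ae_all_iff]
    intro h
    rw [ae_all_iff]
    intro R
    by_cases hh : h ≠ 0 ∧ 1 ≤ R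
    · filter_upwards [key h R hh.1 hh.2] with d hd _ _
      exact hd
    · exact Filter.Eventually.of_forall fun d h1 h2 => absurd ⟨h1, h2⟩ hh
  filter_upwards [key2] with d hd _ _ h hh δ hδ
  obtain ⟨R, hR⟩ := exists_nat_gt (4 / δ)
  have hR0 : (0 : ℝ) < R := lt_trans (by positivity) hR
  have hR1 : 1 ≤ R := by exact_mod_cast hR0
  obtain ⟨n0, hn0⟩ := eventually_atTop.1 ((hd h R hh hR1).and (ev_pow R w))
  filter_upwards [eventually_ge_atTop (s ^ (n0 + 1)), eventually_ge_atTop R] with N hN1 hN2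
  obtain ⟨n, hn⟩ : ∃ n, Nat.log s N = n + 1 := by
    refine ⟨Nat.log s N - 1, ?_⟩
    have h1 : n0 + 1 ≤ Nat.log s N := Nat.le_log_of_pow_le (by omega) hN1
    omega
  have h1 : s ^ (n + 1) ≤ N := by
    rw [← hn]
    exact Nat.pow_log_le_self s (by
      have : 0 < s ^ (n0 + 1) := Nat.pow_pos (by omega)
      omega)
  have h2 : N < s ^ (n + 2) := by
    have := Nat.lt_pow_succ_log_self (by omega : 1 < s) N
    rw [hn] at this
    exact this
  have h3 : n0 ≤ n := by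
    have h1 : n0 + 1 ≤ Nat.log s N := Nat.le_log_of_pow_le (by omega) hN1
    omega
  obtain ⟨hn1, hn2⟩ := hn0 n h3
  have hsn : 2 ^ n ≤ s ^ n := Nat.pow_le_pow_left hs n
  have hwn : R * (w * n + 1) ≤ s ^ n := hn2.trans hsn
  have hwn1 : w * n + 1 ≤ s ^ n := le_trans (Nat.le_mul_of_pos_left _ (by omega)) hwn
  have hss : 2 * s ^ n ≤ s ^ (n + 1) := by
    rw [pow_succ']
    exact Nat.mul_le_mul_right _ hs
  obtain ⟨N', hN'⟩ : ∃ N', N = w * n + N' := ⟨N - w * n, by omega⟩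
  have h4 : s ^ n ≤ N' := by omega
  have h5 : N' < s ^ 2 * s ^ n := by
    rw [← pow_add, add_comm 2 n]
    omega
  obtain ⟨r, hr, h6, h7⟩ := near_scale (s ^ n) (s ^ 2) R N' (Nat.pow_pos (by omega)) hR1 h4 h5
  have h8 := hn1 r hr
  have h9 := W_step b h _ N' h6 ((b : ℝ) ^ (w * n) * Real.ofDigits d)
  have h10 : ‖W b h N (Real.ofDigits d)‖ ≤ (w * n : ℕ) +
      ‖W b h N' ((b : ℝ) ^ (w * n) * Real.ofDigits d)‖ := by
    rw [hN', W_split]
    exact (norm_add_le _ _).trans (add_le_add (W_bound _ _ _ _) le_rfl)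
  have h11 : ((s ^ n + r * s ^ n / R : ℕ) : ℝ) ≤ N' := by exact_mod_cast h6
  have h12 : (N' : ℝ) ≤ N := by rw [hN']; push_cast; linarith [(by positivity : (0 : ℝ) ≤ w * n)]
  have h13 : 1 / (R : ℝ) * (s ^ n + r * s ^ n / R : ℕ) ≤ 1 / (R : ℝ) * N := by
    gcongr
    exact_mod_cast h11.trans h12
  have h14 : (N' : ℝ) / R ≤ N / R := by gcongr
  have h15 : ((w * n : ℕ) : ℝ) + 1 ≤ N / R := by
    rw [le_div_iff₀ hR0]
    have h16 : ((R * (w * n + 1) : ℕ) : ℝ) ≤ N := by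
      have : R * (w * n + 1) ≤ N := by omega
      exact_mod_cast this
    push_cast at h16 ⊢
    linarith
  have h17 : (4 : ℝ) / R ≤ δ := by
    rw [div_lt_iff₀ hδ] at hR
    rw [div_le_iff₀ hR0]
    linarith
  have h18 : (4 : ℝ) / R * N ≤ δ * N := by gcongr
  have h19 : (4 : ℝ) / R * N = 1 / R * N + N / R + N / R + N / R := by ring
  have h20 : (0 : ℝ) ≤ N / R := by positivity
  linarith

end Pool.Agent.Q77.Few
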