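import Mathlib
import Pool.Agent.Q77.Few.Mod

/-!
Independent digits, and one random place in each window.
-/

set_option autoImplicit false

open Finset Filter Topology MeasureTheory ProbabilityTheory
open scoped ENNReal

namespace Pool.Agent.Q77.Few

/-- events which depend on disjoint sets of coordinates -/
lemma indep_split {X : ℕ → Type} [∀ i, MeasurableSpace (X i)] (ν : ∀ i, Measure (X i))
    [∀ i, IsProbabilityMeasure (ν i)] (S : Set ℕ) (A B : Set (∀ i, X i)) (hA : MeasurableSet A)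
    (hB : MeasurableSet B) (hA' : ∀ ω ω', (∀ i ∈ S, ω i = ω' i) → (ω ∈ A ↔ ω' ∈ A))
    (hB' : ∀ ω ω', (∀ i ∈ Sᶜ, ω i = ω' i) → (ω ∈ B ↔ ω' ∈ B)) :
    Measure.infinitePi ν (A ∩ B) = Measure.infinitePi ν A * Measure.infinitePi ν B := by
  classical
  have hne : ∀ i, Nonempty (X i) := fun i => nonempty_of_isProbabilityMeasure (ν i)
  let ω0 : ∀ i, X i := fun i => (hne i).some
  set m : ℕ → MeasurableSpace (∀ i, X i) := fun i =>
    MeasurableSpace.comap (fun ω : ∀ i, X i => ω i) inferInstance with hm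
  have h1 : iIndep m (Measure.infinitePi ν) :=
    iIndepFun_infinitePi (P := ν) (X := fun i (x : X i) => x) (fun i => measurable_id)
  have hle : ∀ i, m i ≤ MeasurableSpace.pi := fun i => (measurable_pi_apply i).comap_le
  have h2 := indep_iSup_of_disjoint hle h1 (disjoint_compl_right (a := S))
  have key : ∀ (V : Set ℕ) (C : Set (∀ i, X i)), MeasurableSet C →
      (∀ ω ω', (∀ i ∈ V, ω i = ω' i) → (ω ∈ C ↔ ω' ∈ C)) →
      MeasurableSet[⨆ i ∈ V, m i] C := by
    intro V C hC hC'
    set f : (∀ i, X i) → (∀ i, X i) := fun ω i => if i ∈ V then ω i else ω0 i with hf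
    have hfm : @Measurable _ _ (⨆ i ∈ V, m i) MeasurableSpace.pi f := by
      rw [@measurable_pi_iff]
      intro i
      by_cases hi : i ∈ V
      · have h3 : (fun ω : ∀ i, X i => f ω i) = fun ω => ω i := by
          funext ω
          rw [hf]
          simp [hi]
        rw [h3]
        have h4 : m i ≤ ⨆ i ∈ V, m i := le_iSup₂_of_le i hi le_rfl
        exact Measurable.mono (comap_measurable _) h4 le_rfl
      · have h3 : (fun ω : ∀ i, X i => f ω i) = fun _ => ω0 i := by
          funext ω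
          rw [hf]
          simp [hi]
        rw [h3]
        exact @measurable_const _ _ _ (⨆ i ∈ V, m i) _
    have h5 : C = f ⁻¹' C := by
      ext ω
      rw [Set.mem_preimage]
      apply hC'
      intro i hi
      rw [hf]
      simp [hi]
    rw [h5]
    exact hfm hC
  exact (Indep_iff _ _ _).1 h2 A B (key S A hA hA') (key Sᶜ B hB hB')

lemma head_cancel (s Q : ℕ) (hQ : 1 ≤ Q) (hQs : Q ∣ s) (hcop : Q.Coprime (s / Q)) (n h h0 a : ℕ)
    (H : s * h + a ≡ s * h0 + a [MOD Q ^ (n + 1)]) : h ≡ h0 [MOD Q ^ n] := by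
  obtain ⟨s1, hs1⟩ := hQs
  have h1 : s / Q = s1 := by rw [hs1]; exact Nat.mul_div_cancel_left _ (by omega)
  rw [h1] at hcop
  have h2 : s * h ≡ s * h0 [MOD Q ^ (n + 1)] := Nat.ModEq.add_right_cancel' a H
  rw [hs1, mul_assoc, mul_assoc, pow_succ'] at h2
  have h3 : s1 * h ≡ s1 * h0 [MOD Q ^ n] := Nat.ModEq.mul_left_cancel' (by omega) h2
  exact Nat.ModEq.cancel_left_of_coprime (Nat.Coprime.pow_left n hcop) h3

/-- independent digits -/
lemma head_prob (s Q : ℕ) (hQ : 1 ≤ Q) (hQs : Q ∣ s) (hcop : Q.Coprime (s / Q))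
    (ν : ℕ → Measure (Fin s)) [∀ i, IsProbabilityMeasure (ν i)] (n : ℕ) :
    ∀ r : ℕ, Measure.infinitePi ν {d : ℕ → Fin s | head s d n ≡ r [MOD Q ^ n]} ≤
      ∏ i ∈ range n, ⨆ r : ℕ, ν i {a : Fin s | (a : ℕ) ≡ r [MOD Q]} := by
  classical
  have hmeas : ∀ n : ℕ, Measurable (fun d : ℕ → Fin s => head s d n) := by
    intro n
    induction n with
    | zero => exact measurable_const
    | succ n ih =>
      have : (fun d : ℕ → Fin s => head s d (n + 1)) =
          (fun p : ℕ × Fin s => s * p.1 + p.2) ∘ (fun d : ℕ → Fin s => (head s d n, d n)) := rfl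
      rw [this]
      exact (measurable_of_countable _).comp (ih.prodMk (measurable_pi_apply n))
  induction n with
  | zero =>
    intro r
    rw [range_zero, prod_empty]
    exact prob_le_one
  | succ n ih =>
    intro r
    set r' : Fin s → ℕ := fun a =>
      if h : ∃ d0 : ℕ → Fin s, head s d0 (n + 1) ≡ r [MOD Q ^ (n + 1)] ∧ d0 n = a then
        head s h.choose n else 0 with hr'
    set U : Finset (Fin s) := univ.filter (fun a : Fin s => (a : ℕ) ≡ r [MOD Q]) with hU
    have hsub : {d : ℕ → Fin s | head s d (n + 1) ≡ r [MOD Q ^ (n + 1)]} ⊆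
        ⋃ a ∈ U, ({d : ℕ → Fin s | head s d n ≡ r' a [MOD Q ^ n]} ∩ {d : ℕ → Fin s | d n = a}) := by
      intro d hd
      rw [Set.mem_ofPred_eq] at hd
      simp only [Set.mem_iUnion]
      refine ⟨d n, ?_, ?_, rfl⟩
      · rw [hU, mem_filter]
        refine ⟨mem_univ _, ?_⟩
        have h1 : head s d (n + 1) ≡ r [MOD Q] :=
          Nat.ModEq.of_dvd (dvd_pow_self Q (Nat.succ_ne_zero n)) hd
        have h2 : ((d n : ℕ)) ≡ head s d (n + 1) [MOD Q] := by
          rw [head]
          have h3 : s * head s d n ≡ 0 [MOD Q] :=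
            (Nat.modEq_zero_iff_dvd.2 (hQs.mul_right _))
          have h4 := Nat.ModEq.add_right (d n : ℕ) h3
          rw [zero_add] at h4
          exact h4.symm
        exact h2.trans h1
      · have h : ∃ d0 : ℕ → Fin s, head s d0 (n + 1) ≡ r [MOD Q ^ (n + 1)] ∧ d0 n = d n :=
          ⟨d, hd, rfl⟩
        rw [Set.mem_ofPred_eq, hr']
        simp only
        rw [dif_pos h]
        obtain ⟨h1, h2⟩ := h.choose_spec
        apply head_cancel s Q hQ hQs hcop n _ _ (d n : ℕ)
        have h3 : head s h.choose (n + 1) = s * head s h.choose n + (d n : ℕ) := by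
          rw [head, h2]
        rw [← h3]
        exact hd.trans h1.symm
    have hone : ∀ a ∈ U, Measure.infinitePi ν
        ({d : ℕ → Fin s | head s d n ≡ r' a [MOD Q ^ n]} ∩ {d : ℕ → Fin s | d n = a}) ≤
        (∏ i ∈ range n, ⨆ r : ℕ, ν i {a : Fin s | (a : ℕ) ≡ r [MOD Q]}) * ν n {a} := by
      intro a _
      have hm1 : MeasurableSet {d : ℕ → Fin s | head s d n ≡ r' a [MOD Q ^ n]} :=
        hmeas n (MeasurableSet.of_discrete (s := {k : ℕ | k ≡ r' a [MOD Q ^ n]}))
      have hm2 : MeasurableSet {d : ℕ → Fin s | d n = a} := by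
        have h4 : MeasurableSet ((fun d : ℕ → Fin s => d n) ⁻¹' {a}) :=
          (measurable_pi_apply n) (measurableSet_singleton a)
        exact h4
      rw [indep_split ν (Set.Iio n) _ _ hm1 hm2
        (by
          intro ω ω' h
          simp only [Set.mem_ofPred_eq]
          rw [head_congr s ω ω' n (fun i hi => h i hi)])
        (by
          intro ω ω' h
          simp only [Set.mem_ofPred_eq]
          rw [h n (by simp)])]
      have h3 : Measure.infinitePi ν {d : ℕ → Fin s | d n = a} = ν n {a} := by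
        rw [← Measure.infinitePi_map_eval ν n,
          Measure.map_apply (measurable_pi_apply n) (measurableSet_singleton a)]
        rfl
      rw [h3]
      gcongr
      exact ih (r' a)
    calc _ ≤ Measure.infinitePi ν (⋃ a ∈ U,
          ({d : ℕ → Fin s | head s d n ≡ r' a [MOD Q ^ n]} ∩ {d : ℕ → Fin s | d n = a})) :=
          measure_mono hsub
      _ ≤ ∑ a ∈ U, Measure.infinitePi ν
          ({d : ℕ → Fin s | head s d n ≡ r' a [MOD Q ^ n]} ∩ {d : ℕ → Fin s | d n = a}) :=
          measure_biUnion_finset_le _ _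
      _ ≤ ∑ a ∈ U, (∏ i ∈ range n, ⨆ r : ℕ, ν i {a : Fin s | (a : ℕ) ≡ r [MOD Q]}) * ν n {a} :=
          Finset.sum_le_sum hone
      _ = (∏ i ∈ range n, ⨆ r : ℕ, ν i {a : Fin s | (a : ℕ) ≡ r [MOD Q]}) *
          ∑ a ∈ U, ν n {a} := by rw [Finset.mul_sum]
      _ = (∏ i ∈ range n, ⨆ r : ℕ, ν i {a : Fin s | (a : ℕ) ≡ r [MOD Q]}) *
          ν n {a : Fin s | (a : ℕ) ≡ r [MOD Q]} := by
          congr 1
          rw [sum_measure_singleton]
          congr 1
          ext a
          simp [hU]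
      _ ≤ _ := by
          rw [prod_range_succ]
          gcongr
          exact le_iSup (fun r : ℕ => ν n {a : Fin s | (a : ℕ) ≡ r [MOD Q]}) r

lemma spread_pi (s Q : ℕ) (hQ : 1 ≤ Q) (hQs : Q ∣ s) (hcop : Q.Coprime (s / Q))
    (ν : ℕ → Measure (Fin s)) [∀ i, IsProbabilityMeasure (ν i)] :
    SpreadMod s Q (Measure.infinitePi ν)
      (fun n => ∏ i ∈ range n, ⨆ r : ℕ, ν i {a : Fin s | (a : ℕ) ≡ r [MOD Q]}) := by
  intro n r T hT
  have hmeas : ∀ n : ℕ, Measurable (fun d : ℕ → Fin s => head s d n) := by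
    intro n
    induction n with
    | zero => exact measurable_const
    | succ n ih =>
      have : (fun d : ℕ → Fin s => head s d (n + 1)) =
          (fun p : ℕ × Fin s => s * p.1 + p.2) ∘ (fun d : ℕ → Fin s => (head s d n, d n)) := rfl
      rw [this]
      exact (measurable_of_countable _).comp (ih.prodMk (measurable_pi_apply n))
  have hm : MeasurableSet {d : ℕ → Fin s | (fun i => d (i + n)) ∈ T} := meas_tail s n hT
  have hAm : MeasurableSet {d : ℕ → Fin s | head s d n ≡ r [MOD Q ^ n]} :=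
    hmeas n (MeasurableSet.of_discrete (s := {k : ℕ | k ≡ r [MOD Q ^ n]}))
  have h1 := indep_split ν (Set.Iio n) {d : ℕ → Fin s | head s d n ≡ r [MOD Q ^ n]}
    {d : ℕ → Fin s | (fun i => d (i + n)) ∈ T} hAm hm
    (by
      intro ω ω' h
      simp only [Set.mem_ofPred_eq]
      rw [head_congr s ω ω' n (fun i hi => h i hi)])
    (by
      intro ω ω' h
      have h2 : (fun i => ω (i + n)) = fun i => ω' (i + n) := by
        funext i
        apply h
        simp
      simp only [Set.mem_ofPred_eq, h2])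
  have h2 : {d : ℕ → Fin s | head s d n ≡ r [MOD Q ^ n] ∧ (fun i => d (i + n)) ∈ T} =
      {d : ℕ → Fin s | head s d n ≡ r [MOD Q ^ n]} ∩
        {d : ℕ → Fin s | (fun i => d (i + n)) ∈ T} := rfl
  rw [h2, h1]
  gcongr
  exact head_prob s Q hQ hQs hcop ν n r

/-- equal residues of two numbers with nearly equal digits -/
lemma digits_of_head (s Q : ℕ) (hQ : 2 ≤ Q) (hQs : Q ∣ s) (hcop : Q.Coprime (s / Q))
    (D D' : ℕ → Fin s) (hD : ∀ i, D i = D' i ∨ (D i : ℕ) + 1 = D' i ∨ (D' i : ℕ) + 1 = D i)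
    (n : ℕ) (H : head s D n ≡ head s D' n [MOD Q ^ n]) : ∀ i < n, D i = D' i := by
  induction n with
  | zero => intro i hi; omega
  | succ n ih =>
    have key : ∀ E : ℕ → Fin s, (E n : ℕ) ≡ head s E (n + 1) [MOD Q] := by
      intro E
      rw [head]
      have h3 : s * head s E n ≡ 0 [MOD Q] := (Nat.modEq_zero_iff_dvd.2 (hQs.mul_right _))
      have h4 := Nat.ModEq.add_right (E n : ℕ) h3
      rw [zero_add] at h4
      exact h4.symm
    have h1 : (D n : ℕ) ≡ D' n [MOD Q] :=
      ((key D).trans (Nat.ModEq.of_dvd (dvd_pow_self Q (Nat.succ_ne_zero n)) H)).trans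
        (key D').symm
    have hne : ∀ a : ℕ, ¬ a ≡ a + 1 [MOD Q] := by
      intro a h
      have h2 := (Nat.modEq_iff_dvd' (by omega : a ≤ a + 1)).1 h
      rw [Nat.add_sub_cancel_left] at h2
      have := Nat.le_of_dvd (by norm_num) h2
      omega
    have h2 : D n = D' n := by
      rcases hD n with h | h | h
      · exact h
      · exfalso
        rw [← h] at h1
        exact hne _ h1
      · exfalso
        rw [← h] at h1
        exact hne _ h1.symm
    have h3 : head s D n ≡ head s D' n [MOD Q ^ n] := by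
      apply head_cancel s Q (by omega) hQs hcop n _ _ (D n : ℕ)
      rw [head, head, ← h2] at H
      exact H
    intro i hi
    rcases Nat.lt_succ_iff_lt_or_eq.1 hi with h4 | rfl
    · exact ih h3 i h4
    · exact h2

/-- length of a window -/
def M (l : ℕ) : ℕ := 2 ^ (1 + 2 ^ l)

/-- start of a window -/
def w : ℕ → ℕ
  | 0 => 0
  | l + 1 => w l + M l

lemma M_pos (l : ℕ) : 0 < M l := Nat.pow_pos (by norm_num)

instance (l : ℕ) : NeZero (M l) := ⟨(M_pos l).ne'⟩

lemma w_mono : StrictMono w := strictMono_nat_of_lt_succ fun l => by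
  rw [w]
  have := M_pos l
  omega

lemma le_w (l : ℕ) : l ≤ w l := w_mono.id_le l

/-- uniform law on a window -/
noncomputable def unif (l : ℕ) : Measure (Fin (M l)) := ((M l : ℝ≥0∞)⁻¹) • Measure.count

instance (l : ℕ) : IsProbabilityMeasure (unif l) := by
  constructor
  unfold unif
  rw [Measure.smul_apply, Measure.count_univ, smul_eq_mul]
  simp only [ENat.card_eq_coe_fintype_card, Fintype.card_fin]
  exact ENNReal.inv_mul_cancel (by exact_mod_cast (M_pos l).ne') (by simp)

lemma unif_single (l : ℕ) (a : Fin (M l)) : unif l {a} = (M l : ℝ≥0∞)⁻¹ := by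
  unfold unif
  rw [Measure.smul_apply, Measure.count_singleton, smul_eq_mul, mul_one]

/-- the places which are changed -/
def Pl (ω : ∀ l, Fin (M l)) : Set ℕ := {j | ∃ l, w l + ω l = j}

open Classical in
/-- changed digits -/
noncomputable def chg {s : ℕ} (c : Fin s → Fin s) (d : ℕ → Fin s) (ω : ∀ l, Fin (M l)) (j : ℕ) :
    Fin s := if j ∈ Pl ω then c (d j) else d j

lemma meas_Pl (j : ℕ) : MeasurableSet {ω : ∀ l, Fin (M l) | j ∈ Pl ω} := by
  have : {ω : ∀ l, Fin (M l) | j ∈ Pl ω} =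
      ⋃ l, (fun ω : ∀ l, Fin (M l) => ω l) ⁻¹' {a : Fin (M l) | w l + a = j} := by
    ext ω
    simp [Pl]
  rw [this]
  exact MeasurableSet.iUnion fun l => measurable_pi_apply l (MeasurableSet.of_discrete)

lemma meas_chg {s : ℕ} (c : Fin s → Fin s) (d : ℕ → Fin s) :
    Measurable (chg c d) := by
  classical
  rw [measurable_pi_iff]
  intro j
  exact Measurable.ite (meas_Pl j) measurable_const measurable_const

/-- the place in a window -/
lemma place_window (ω : ∀ l, Fin (M l)) (l j : ℕ) (h1 : w l ≤ j) (h2 : j < w (l + 1)) :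
    j ∈ Pl ω ↔ w l + ω l = j := by
  constructor
  · rintro ⟨l', hl'⟩
    have h3 : w l' ≤ j := by omega
    have h4 : j < w (l' + 1) := by
      rw [w]
      have := (ω l').isLt
      omega
    have h5 : l = l' := by
      have h6 : l < l' + 1 := w_mono.lt_iff_lt.1 (h1.trans_lt h4)
      have h7 : l' < l + 1 := w_mono.lt_iff_lt.1 (h3.trans_lt h2)
      omega
    subst h5
    exact hl'
  · intro h
    exact ⟨l, h⟩

/-- bound for the concentration -/
noncomputable def pr (n : ℕ) : ℝ := ∏ l ∈ (range n).filter (fun l => w (l + 1) ≤ n), (1 / (M l : ℝ))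

lemma meas_head (s : ℕ) (n : ℕ) : Measurable (fun d : ℕ → Fin s => head s d n) := by
  induction n with
  | zero => exact measurable_const
  | succ n ih =>
    have : (fun d : ℕ → Fin s => head s d (n + 1)) =
        (fun p : ℕ × Fin s => s * p.1 + p.2) ∘ (fun d : ℕ → Fin s => (head s d n, d n)) := rfl
    rw [this]
    exact (measurable_of_countable _).comp (ih.prodMk (measurable_pi_apply n))

lemma spread_chg {s : ℕ} (Q : ℕ) (hQ : 2 ≤ Q) (hQs : Q ∣ s) (hcop : Q.Coprime (s / Q))
    (c : Fin s → Fin s) (hc : ∀ a : Fin s, (c a : ℕ) = a + 1 ∨ (c a : ℕ) + 1 = a)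
    (d : ℕ → Fin s) :
    SpreadMod s Q ((Measure.infinitePi unif).map (chg c d)) (fun n => ENNReal.ofReal (pr n)) := by
  classical
  intro n u T hT
  have hca : ∀ a, c a ≠ a := by
    intro a h
    rcases hc a with h1 | h1 <;> rw [h] at h1 <;> omega
  have hm : MeasurableSet {d : ℕ → Fin s | (fun i => d (i + n)) ∈ T} := meas_tail s n hT
  have hAm : MeasurableSet {d : ℕ → Fin s | head s d n ≡ u [MOD Q ^ n]} :=
    meas_head s n (MeasurableSet.of_discrete (s := {k : ℕ | k ≡ u [MOD Q ^ n]}))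
  have h2 : {d : ℕ → Fin s | head s d n ≡ u [MOD Q ^ n] ∧ (fun i => d (i + n)) ∈ T} =
      {d : ℕ → Fin s | head s d n ≡ u [MOD Q ^ n]} ∩
        {d : ℕ → Fin s | (fun i => d (i + n)) ∈ T} := rfl
  rw [h2, Measure.map_apply (meas_chg c d) (hAm.inter hm), Measure.map_apply (meas_chg c d) hm,
    Set.preimage_inter]
  rcases Set.eq_empty_or_nonempty
    (chg c d ⁻¹' {d : ℕ → Fin s | head s d n ≡ u [MOD Q ^ n]}) with he | he
  · rw [he, Set.empty_inter, measure_empty]
    exact zero_le
  obtain ⟨ω0, hω0⟩ := he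
  set S : Finset ℕ := (range n).filter (fun l => w (l + 1) ≤ n) with hS
  have hsub : chg c d ⁻¹' {d : ℕ → Fin s | head s d n ≡ u [MOD Q ^ n]} ⊆
      Set.pi (S : Set ℕ) (fun l => {ω0 l}) := by
    intro ω hω
    have hdig : ∀ i < n, chg c d ω i = chg c d ω0 i := by
      apply digits_of_head s Q hQ hQs hcop _ _ _ n (hω.trans hω0.symm)
      intro i
      unfold chg
      by_cases h3 : i ∈ Pl ω <;> by_cases h4 : i ∈ Pl ω0
      · simp [h3, h4]
      · rw [if_pos h3, if_neg h4]
        rcases hc (d i) with h5 | h5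
        · exact Or.inr (Or.inr h5.symm)
        · exact Or.inr (Or.inl h5)
      · rw [if_neg h3, if_pos h4]
        rcases hc (d i) with h5 | h5
        · exact Or.inr (Or.inl h5.symm)
        · exact Or.inr (Or.inr h5)
      · simp [h3, h4]
    rw [Set.mem_pi]
    intro l hl
    rw [mem_coe, hS, mem_filter] at hl
    have h3 : w l + ω l < w (l + 1) := by
      rw [w]
      have := (ω l).isLt
      omega
    have h4 : chg c d ω (w l + ω l) = chg c d ω0 (w l + ω l) := hdig _ (h3.trans_le hl.2)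
    have h5 : (w l + ω l) ∈ Pl ω := ⟨l, rfl⟩
    have h6 : (w l + ω l) ∈ Pl ω0 := by
      by_contra hcon
      unfold chg at h4
      rw [if_pos h5, if_neg hcon] at h4
      exact hca _ h4
    rw [place_window ω0 l _ (by omega) h3] at h6
    rw [Set.mem_singleton_iff]
    exact Fin.ext (by omega)
  have hPm : MeasurableSet (Set.pi (S : Set ℕ) (fun l => ({ω0 l} : Set (Fin (M l))))) :=
    MeasurableSet.pi (Set.to_countable _) (fun i _ => measurableSet_singleton _)
  have hTm : MeasurableSet (chg c d ⁻¹' {d : ℕ → Fin s | (fun i => d (i + n)) ∈ T}) :=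
    meas_chg c d hm
  have hind := indep_split unif (S : Set ℕ) (Set.pi (S : Set ℕ) (fun l => {ω0 l}))
    (chg c d ⁻¹' {d : ℕ → Fin s | (fun i => d (i + n)) ∈ T}) hPm hTm
    (by
      intro ω ω' h
      simp only [Set.mem_pi, Set.mem_singleton_iff]
      constructor
      · intro h2 i hi
        rw [← h i hi]
        exact h2 i hi
      · intro h2 i hi
        rw [h i hi]
        exact h2 i hi)
    (by
      intro ω ω' h
      have h2 : (fun i => chg c d ω (i + n)) = fun i => chg c d ω' (i + n) := by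
        funext i
        have h3 : ∀ ω1 ω2 : ∀ l, Fin (M l), (∀ i ∈ (S : Set ℕ)ᶜ, ω1 i = ω2 i) →
            i + n ∈ Pl ω1 → i + n ∈ Pl ω2 := by
          rintro ω1 ω2 h4 ⟨l, hl⟩
          refine ⟨l, ?_⟩
          rw [← h4 l]
          · exact hl
          · intro hlS
            rw [mem_coe, hS, mem_filter] at hlS
            have h5 : w l + ω1 l < w (l + 1) := by
              rw [w]
              have := (ω1 l).isLt
              omega
            omega
        have h4 : i + n ∈ Pl ω ↔ i + n ∈ Pl ω' :=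
          ⟨h3 ω ω' h, h3 ω' ω fun i hi => (h i hi).symm⟩
        unfold chg
        by_cases h5 : i + n ∈ Pl ω
        · rw [if_pos h5, if_pos (h4.1 h5)]
        · rw [if_neg h5, if_neg (fun h6 => h5 (h4.2 h6))]
      simp only [Set.mem_preimage, Set.mem_ofPred_eq, h2])
  calc _ ≤ Measure.infinitePi unif (Set.pi (S : Set ℕ) (fun l => {ω0 l}) ∩
        (chg c d ⁻¹' {d : ℕ → Fin s | (fun i => d (i + n)) ∈ T})) :=
        measure_mono (Set.inter_subset_inter_left _ hsub)
    _ = _ := hind
    _ ≤ _ := by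
        gcongr
        rw [Measure.infinitePi_pi _ (fun i _ => measurableSet_singleton _)]
        have hpr : pr n = ∏ l ∈ S, (1 / (M l : ℝ)) := rfl
        simp only
        rw [hpr, ENNReal.ofReal_prod_of_nonneg (fun i _ => by positivity)]
        apply le_of_eq
        refine Finset.prod_congr rfl fun l _ => ?_
        rw [unif_single, one_div, ENNReal.ofReal_inv_of_pos (by exact_mod_cast M_pos l),
          ENNReal.ofReal_natCast]

lemma pr_nonneg (n : ℕ) : 0 ≤ pr n := Finset.prod_nonneg fun _ _ => by positivity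

lemma pr_le (I n : ℕ) (h : w I ≤ n) : pr n ≤ ∏ l ∈ range I, (1 / (M l : ℝ)) := by
  unfold pr
  have hsub : range I ⊆ (range n).filter (fun l => w (l + 1) ≤ n) := by
    intro l hl
    rw [mem_range] at hl
    have h1 : w (l + 1) ≤ w I := w_mono.monotone hl
    have h2 := le_w (l + 1)
    rw [mem_filter, mem_range]
    constructor <;> omega
  rw [← Finset.prod_sdiff hsub]
  apply mul_le_of_le_one_left (Finset.prod_nonneg fun _ _ => by positivity)
  apply Finset.prod_le_one (fun _ _ => by positivity)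
  intro l _
  have : (1 : ℝ) ≤ M l := by exact_mod_cast M_pos l
  rw [div_le_one (by linarith)]
  exact this

lemma ratio (i : ℕ) : (M i : ℝ) * ∏ l ∈ range i, (1 / (M l : ℝ)) = 4 / 2 ^ i := by
  induction i with
  | zero => simp [M]
  | succ i ih =>
    rw [prod_range_succ]
    have h1 : (0 : ℝ) < M i := by exact_mod_cast M_pos i
    have h2 : (M (i + 1) : ℝ) * 2 = (M i : ℝ) ^ 2 := by
      unfold M
      push_cast
      ring
    have h3 : (M (i + 1) : ℝ) = (M i : ℝ) ^ 2 / 2 := by linarith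
    rw [h3]
    have h4 : (M i : ℝ) ^ 2 / 2 * ((∏ l ∈ range i, (1 / (M l : ℝ))) * (1 / (M i : ℝ))) =
        (M i : ℝ) * (∏ l ∈ range i, (1 / (M l : ℝ))) / 2 := by
      field_simp
    rw [h4, ih]
    ring

lemma sum_windows (I : ℕ) : ∑ n ∈ range (w I), pr n ≤ 8 - 8 / 2 ^ I := by
  induction I with
  | zero => simp [w]
  | succ I ih =>
    have h1 : ∑ n ∈ range (w (I + 1)), pr n =
        ∑ n ∈ range (w I), pr n + ∑ i ∈ range (M I), pr (w I + i) := by
      rw [w, sum_range_add]
    rw [h1]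
    have h2 : ∑ i ∈ range (M I), pr (w I + i) ≤ 4 / 2 ^ I := by
      calc _ ≤ ∑ _i ∈ range (M I), ∏ l ∈ range I, (1 / (M l : ℝ)) :=
            Finset.sum_le_sum fun i _ => pr_le I _ (by omega)
        _ = _ := by rw [sum_const, card_range, nsmul_eq_mul, ratio]
    have h3 : (8 : ℝ) - 8 / 2 ^ (I + 1) = 8 - 8 / 2 ^ I + 4 / 2 ^ I := by
      rw [pow_succ]
      field_simp
      ring
    linarith

lemma summable_pr : Summable pr := by
  apply summable_of_sum_range_le (c := 8) pr_nonneg
  intro n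
  calc ∑ i ∈ range n, pr i ≤ ∑ i ∈ range (w n), pr i :=
        Finset.sum_le_sum_of_subset_of_nonneg (Finset.range_mono (le_w n))
          fun i _ _ => pr_nonneg i
    _ ≤ 8 - 8 / 2 ^ n := sum_windows n
    _ ≤ 8 := by
        have : (0 : ℝ) ≤ 8 / 2 ^ n := by positivity
        linarith

lemma tsum_pr : ∑' n, ENNReal.ofReal (pr n) ≠ ∞ := summable_pr.tsum_ofReal_ne_top

/-- number of changed places -/
lemma card_Pl (ω : ∀ l, Fin (M l)) (n : ℕ) (A : Set ℕ) (hA : ∀ i ∈ A, i < n ∧ i ∈ Pl ω) :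
    A.ncard ≤ Nat.log 2 (Nat.log 2 n) + 2 := by
  have hsub : A ⊆ (fun l => w l + (ω l : ℕ)) '' (range (Nat.log 2 (Nat.log 2 n) + 2) : Set ℕ) := by
    intro i hi
    obtain ⟨h1, l, hl⟩ := hA i hi
    refine ⟨l, ?_, hl⟩
    rw [mem_coe, mem_range]
    rcases Nat.eq_zero_or_pos l with rfl | hl0
    · omega
    obtain ⟨k, rfl⟩ : ∃ k, l = k + 1 := ⟨l - 1, by omega⟩
    have h2 : M k ≤ w (k + 1) := by rw [w]; omega
    have h3 : 2 ^ (1 + 2 ^ k) ≤ n := by
      have : M k = 2 ^ (1 + 2 ^ k) := rfl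
      omega
    have h4 : 1 + 2 ^ k ≤ Nat.log 2 n := Nat.le_log_of_pow_le (by norm_num) h3
    have h5 : k ≤ Nat.log 2 (Nat.log 2 n) := Nat.le_log_of_pow_le (by norm_num) (by omega)
    omega
  calc A.ncard ≤ ((fun l => w l + (ω l : ℕ)) ''
        (range (Nat.log 2 (Nat.log 2 n) + 2) : Set ℕ)).ncard :=
        Set.ncard_le_ncard hsub ((Finset.finite_toSet _).image _)
    _ ≤ (range (Nat.log 2 (Nat.log 2 n) + 2) : Set ℕ).ncard := Set.ncard_image_le (Finset.finite_toSet _)
    _ = _ := by rw [Set.ncard_coe_finset, card_range]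

/-- few changes, at the same places for countably many numbers -/
theorem changes (s : ℕ) (hs : 2 ≤ s) (X : Set ℝ) (hX : X.Countable) : ∃ A : Set ℕ,
    (∀ n : ℕ, {i : ℕ | i < n ∧ i ∈ A}.ncard ≤ Nat.log 2 (Nat.log 2 n) + 2) ∧
    ∀ x ∈ X, ∃ y : ℝ, ⌊y⌋ = ⌊x⌋ ∧
    (∀ i : ℕ, (i ∈ A → |⌊y * (s : ℝ) ^ (i + 1)⌋ % s - ⌊x * (s : ℝ) ^ (i + 1)⌋ % s| = 1) ∧
      (i ∉ A → ⌊y * (s : ℝ) ^ (i + 1)⌋ % s = ⌊x * (s : ℝ) ^ (i + 1)⌋ % s)) ∧
    ∀ b : ℕ, 2 ≤ b → (∃ p : ℕ, p.Prime ∧ p ∣ s ∧ ¬ p ∣ b) → Nrm b y := by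
  classical
  have h1s : 1 ≤ s := by omega
  set c : Fin s → Fin s := fun a => if h : (a : ℕ) + 1 < s then ⟨a + 1, h⟩ else
    ⟨a - 1, by have := a.isLt; omega⟩ with hc
  have hca : ∀ a : Fin s, (c a : ℕ) = a + 1 ∨ (c a : ℕ) + 1 = a := by
    intro a
    rw [hc]
    simp only
    split_ifs with h
    · left; rfl
    · right
      have := a.isLt
      simp only
      omega
  have h1 : ∀ᵐ ω ∂(Measure.infinitePi unif), ∀ x ∈ X, ∀ p : ℕ, p.Prime ∧ p ∣ s →
      ∀ b : ℕ, 2 ≤ b → b.Coprime (p ^ s.factorization p) →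
      Wn b (Real.ofDigits (chg c (digs s h1s x) ω)) := by
    rw [ae_ball_iff hX]
    intro x _
    rw [ae_all_iff]
    intro p
    by_cases hp : p.Prime ∧ p ∣ s
    swap
    · exact Filter.Eventually.of_forall fun ω h => absurd h hp
    have hf : 1 ≤ s.factorization p :=
      (hp.1.dvd_iff_one_le_factorization (by omega)).1 hp.2
    have hQ2 : 2 ≤ p ^ s.factorization p :=
      hp.1.two_le.trans (Nat.le_self_pow (by omega) p)
    have hQs : p ^ s.factorization p ∣ s := Nat.ordProj_dvd s p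
    have hcop : (p ^ s.factorization p).Coprime (s / p ^ s.factorization p) :=
      Nat.Coprime.pow_left _ (Nat.coprime_ordCompl hp.1 (by omega))
    have hprob : IsProbabilityMeasure
        ((Measure.infinitePi unif).map (chg c (digs s h1s x))) :=
      Measure.isProbabilityMeasure_map (meas_chg c _).aemeasurable
    have h2 := ae_mod s hs _ hQ2 hQs
      ((Measure.infinitePi unif).map (chg c (digs s h1s x))) _
      (spread_chg _ hQ2 hQs hcop c hca _) tsum_pr
    filter_upwards [ae_of_ae_map (meas_chg c _).aemeasurable h2] with ω hω _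
    exact hω
  obtain ⟨ω, hω⟩ := h1.exists
  refine ⟨Pl ω, fun n => card_Pl ω n _ fun i hi => hi, fun x hx => ?_⟩
  set d : ℕ → Fin s := digs s h1s x with hd
  have hW : ∀ b : ℕ, 2 ≤ b → (∃ p : ℕ, p.Prime ∧ p ∣ s ∧ ¬ p ∣ b) →
      Wn b (Real.ofDigits (chg c d ω)) := by
    rintro b hb ⟨p, hp1, hp2, hp3⟩
    exact hω x hx p ⟨hp1, hp2⟩ b hb (((hp1.coprime_iff_not_dvd).2 hp3).symm.pow_right _)
  have hirr : ∀ (q : ℕ) (v : ℤ), 1 ≤ q → Real.ofDigits (chg c d ω) * q ≠ v := by
    intro q v hq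
    refine wn_not_int (s + 1) _ (hW (s + 1) (by omega) ⟨s.minFac, Nat.minFac_prime (by omega),
      Nat.minFac_dvd s, ?_⟩) q hq v
    intro h
    have h3 : s.minFac ∣ 1 := (Nat.dvd_add_right (Nat.minFac_dvd s)).1 h
    have h4 := (Nat.minFac_prime (by omega : s ≠ 1)).two_le
    have h5 := Nat.le_of_dvd (by norm_num) h3
    omega
  refine ⟨⌊x⌋ + Real.ofDigits (chg c d ω), ?_, ?_, ?_⟩
  · rw [Int.floor_intCast_add]
    have h3 : ⌊Real.ofDigits (chg c d ω)⌋ = 0 := by
      rw [Int.floor_eq_zero_iff]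
      refine ⟨Real.ofDigits_nonneg _, ?_⟩
      rcases lt_or_eq_of_le (Real.ofDigits_le_one (chg c d ω)) with h | h
      · exact h
      · exfalso
        apply hirr 1 1 le_rfl
        rw [h]
        simp
    rw [h3, add_zero]
  · intro i
    rw [digits_back s hs _ _ hirr i, digs_eq s (by omega) x i, ← hd]
    constructor
    · intro hi
      unfold chg
      rw [if_pos hi]
      rcases hca (d i) with h3 | h3
      · rw [h3]
        push_cast
        rw [add_sub_cancel_left]
        rfl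
      · rw [← h3]
        push_cast
        rw [sub_add_cancel_left]
        rfl
    · intro hi
      unfold chg
      rw [if_neg hi]
  · intro b hb hcop
    exact normal_of_weyl b hb _ (wn_int b _ _ (hW b hb hcop))

end Pool.Agent.Q77.Few
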