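import Mathlib
import Pool.Agent.Q77.Few.Laws

/-!
A number which cannot be made normal by very few changes.
-/

set_option autoImplicit false

open Finset Filter Topology

namespace Pool.Agent.Q77.Few

/-- numbers with the same digits are close -/
lemma fract_bounds (b : ℕ) (hb : 1 ≤ b) (z : ℝ) (D : ℕ → Fin b) (L : ℕ)
    (hD : ∀ j < L, ⌊z * (b : ℝ) ^ (j + 1)⌋ % b = ((D j : ℕ) : ℤ)) :
    (head b D L : ℝ) / (b : ℝ) ^ L ≤ Int.fract z ∧
      Int.fract z ≤ ((head b D L : ℝ) + 1) / (b : ℝ) ^ L := by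
  have hb0 : (0 : ℝ) < (b : ℝ) ^ L := by
    have : (0 : ℝ) < b := by exact_mod_cast hb
    positivity
  have h0 := floor_head b hb z D L hD
  have h2 : ((head b D L : ℕ) : ℝ) = (⌊z * (b : ℝ) ^ L⌋ : ℝ) - ⌊z⌋ * (b : ℝ) ^ L := by
    exact_mod_cast h0
  have hfr : Int.fract z * (b : ℝ) ^ L = z * (b : ℝ) ^ L - ⌊z⌋ * (b : ℝ) ^ L := by
    rw [Int.fract]; ring
  rw [div_le_iff₀ hb0, le_div_iff₀ hb0, hfr, h2]
  constructor
  · linarith [Int.floor_le (z * (b : ℝ) ^ L)]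
  · linarith [Int.lt_floor_add_one (z * (b : ℝ) ^ L)]

lemma digits_bounds (b : ℕ) (hb : 1 ≤ b) (D : ℕ → Fin b) (L : ℕ) :
    (head b D L : ℝ) / (b : ℝ) ^ L ≤ Real.ofDigits D ∧
      Real.ofDigits D ≤ ((head b D L : ℝ) + 1) / (b : ℝ) ^ L := by
  have hb0 : (0 : ℝ) < (b : ℝ) ^ L := by
    have : (0 : ℝ) < b := by exact_mod_cast hb
    positivity
  rw [split b hb D L]
  have h1 := Real.ofDigits_nonneg (fun i => D (i + L))
  have h2 := Real.ofDigits_le_one (fun i => D (i + L))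
  have h3 : ((b : ℝ) ^ L)⁻¹ * Real.ofDigits (fun i => D (i + L)) + (head b D L : ℝ) / (b : ℝ) ^ L =
      (Real.ofDigits (fun i => D (i + L)) + head b D L) / (b : ℝ) ^ L := by
    field_simp
  rw [h3]
  constructor
  · gcongr; linarith
  · gcongr ?_ / _; linarith

/-- block of a place -/
noncomputable def blk (b t : ℕ) : ℕ := Nat.log (4 * b ^ 2) t + 1

/-- number which belongs to a block -/
noncomputable def zz (s e : ℕ) : ℝ := -(((e - s ^ Nat.log s e : ℕ) : ℝ) / (s : ℝ) ^ Nat.log s e)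

/-- digits of the number -/
noncomputable def cc (s b : ℕ) (hb : 1 ≤ b) (t : ℕ) : Fin b := digs b hb (zz s (blk b t)) t

lemma blk_eq (b : ℕ) (hb : 2 ≤ b) (e t : ℕ) (h1 : (4 * b ^ 2) ^ e ≤ t)
    (h2 : t < (4 * b ^ 2) ^ (e + 1)) : blk b t = e + 1 := by
  have hK : 1 < 4 * b ^ 2 := by nlinarith
  unfold blk
  rw [Nat.log_eq_of_pow_le_of_lt_pow h1 h2]

/-- near integers in the block `e + 1` -/
lemma near (s b : ℕ) (hb : 2 ≤ b) (e t : ℕ) (h1 : (4 * b ^ 2) ^ e ≤ t)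
    (h2 : t < (4 * b ^ 2) ^ (e + 1)) : ∃ m : ℤ,
    |(b : ℝ) ^ t * (Real.ofDigits (cc s b (by omega)) - zz s (e + 1)) - m| ≤
      1 / (b : ℝ) ^ ((4 * b ^ 2) ^ (e + 1) - t) := by
  set c := cc s b (by omega) with hc
  set z := zz s (e + 1) with hz
  set L := (4 * b ^ 2) ^ (e + 1) - t with hL
  have hb0 : (0 : ℝ) < b := by exact_mod_cast (by omega : 0 < b)
  have hD : ∀ j < L, ⌊(z * (b : ℝ) ^ t) * (b : ℝ) ^ (j + 1)⌋ % b = ((c (j + t) : ℕ) : ℤ) := by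
    intro j hj
    have h3 : blk b (j + t) = e + 1 := blk_eq b hb e (j + t) (by omega) (by omega)
    rw [hc]
    unfold cc
    rw [h3, ← hz, ← digs_eq b (by omega) z (j + t)]
    congr 2
    rw [mul_assoc, ← pow_add]
    congr 2
    ring
  obtain ⟨h3, h4⟩ := fract_bounds b (by omega) (z * (b : ℝ) ^ t) (fun i => c (i + t)) L hD
  obtain ⟨h5, h6⟩ := digits_bounds b (by omega) (fun i => c (i + t)) L
  refine ⟨head b c t - ⌊z * (b : ℝ) ^ t⌋, ?_⟩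
  have h7 : (b : ℝ) ^ t * (Real.ofDigits c - z) - ((head b c t - ⌊z * (b : ℝ) ^ t⌋ : ℤ) : ℝ) =
      Real.ofDigits (fun i => c (i + t)) - Int.fract (z * (b : ℝ) ^ t) := by
    rw [split b (by omega) c t, Int.fract]
    push_cast
    field_simp
    ring
  rw [h7, abs_le]
  have h8 : ((head b (fun i => c (i + t)) L : ℝ) + 1) / (b : ℝ) ^ L =
      (head b (fun i => c (i + t)) L : ℝ) / (b : ℝ) ^ L + 1 / (b : ℝ) ^ L := by ring
  rw [h8] at h4 h6
  constructor <;> linarith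

/-- difference of numbers with the same digits between `n` and `F` -/
lemma diff (s : ℕ) (hs : 2 ≤ s) (x y : ℝ) (n F : ℕ) (hnF : n ≤ F)
    (h : ∀ i, n ≤ i → i < F → ⌊y * (s : ℝ) ^ (i + 1)⌋ % s = ⌊x * (s : ℝ) ^ (i + 1)⌋ % s) :
    ∃ (u : ℕ) (q : ℤ), u < s ^ n ∧ |y - x - u / (s : ℝ) ^ n - q| ≤ 1 / (s : ℝ) ^ F := by
  have hs0 : (0 : ℝ) < s := by exact_mod_cast (by omega : 0 < s)
  set D : ℕ → Fin s := fun i => digs s (by omega) x (i + n) with hD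
  have hx : ∀ j < F - n, ⌊(x * (s : ℝ) ^ n) * (s : ℝ) ^ (j + 1)⌋ % s = ((D j : ℕ) : ℤ) := by
    intro j _
    rw [hD]
    simp only
    rw [← digs_eq s (by omega) x (j + n)]
    congr 2
    rw [mul_assoc, ← pow_add]
    congr 2
    ring
  have hy : ∀ j < F - n, ⌊(y * (s : ℝ) ^ n) * (s : ℝ) ^ (j + 1)⌋ % s = ((D j : ℕ) : ℤ) := by
    intro j hj
    rw [← hx j hj]
    have h1 := h (n + j) (by omega) (by omega)
    rw [mul_assoc, mul_assoc, ← pow_add]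
    exact h1
  obtain ⟨h1, h2⟩ := fract_bounds s (by omega) _ D (F - n) hx
  obtain ⟨h3, h4⟩ := fract_bounds s (by omega) _ D (F - n) hy
  have h5 : ((head s D (F - n) : ℝ) + 1) / (s : ℝ) ^ (F - n) =
      (head s D (F - n) : ℝ) / (s : ℝ) ^ (F - n) + 1 / (s : ℝ) ^ (F - n) := by ring
  rw [h5] at h2 h4
  set k : ℤ := ⌊y * (s : ℝ) ^ n⌋ - ⌊x * (s : ℝ) ^ n⌋ with hk
  have hsn : (0 : ℤ) < (s : ℤ) ^ n := by positivity
  have hu0 : 0 ≤ k % (s : ℤ) ^ n := Int.emod_nonneg _ hsn.ne'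
  have hu1 : k % (s : ℤ) ^ n < (s : ℤ) ^ n := Int.emod_lt_of_pos _ hsn
  refine ⟨(k % (s : ℤ) ^ n).toNat, k / (s : ℤ) ^ n, ?_, ?_⟩
  · have h6 : (((k % (s : ℤ) ^ n).toNat : ℕ) : ℤ) < ((s ^ n : ℕ) : ℤ) := by
      rw [Int.toNat_of_nonneg hu0]
      push_cast
      exact hu1
    exact_mod_cast h6
  · have h6 : (((k % (s : ℤ) ^ n).toNat : ℕ) : ℝ) = ((k % (s : ℤ) ^ n : ℤ) : ℝ) := by
      have := Int.toNat_of_nonneg hu0
      exact_mod_cast congrArg (fun t : ℤ => (t : ℝ)) this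
    have h7 : (k : ℝ) = (s : ℝ) ^ n * ((k / (s : ℤ) ^ n : ℤ) : ℝ) + ((k % (s : ℤ) ^ n : ℤ) : ℝ) := by
      have := Int.mul_ediv_add_emod k ((s : ℤ) ^ n)
      exact_mod_cast congrArg (fun t : ℤ => (t : ℝ)) this.symm
    rw [h6]
    have h8 : y - x - ((k % (s : ℤ) ^ n : ℤ) : ℝ) / (s : ℝ) ^ n - ((k / (s : ℤ) ^ n : ℤ) : ℝ) =
        (Int.fract (y * (s : ℝ) ^ n) - Int.fract (x * (s : ℝ) ^ n)) / (s : ℝ) ^ n := by
      rw [Int.fract, Int.fract]
      have h9 : (k : ℝ) = (⌊y * (s : ℝ) ^ n⌋ : ℝ) - ⌊x * (s : ℝ) ^ n⌋ := by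
        rw [hk]; push_cast; ring
      have h10 : ((k % (s : ℤ) ^ n : ℤ) : ℝ) =
          (⌊y * (s : ℝ) ^ n⌋ : ℝ) - ⌊x * (s : ℝ) ^ n⌋ -
            (s : ℝ) ^ n * ((k / (s : ℤ) ^ n : ℤ) : ℝ) := by linarith
      rw [h10]
      field_simp
      ring
    rw [h8, abs_div, abs_of_pos (by positivity : (0 : ℝ) < (s : ℝ) ^ n), div_le_iff₀ (by positivity)]
    have h9 : 1 / (s : ℝ) ^ F * (s : ℝ) ^ n = 1 / (s : ℝ) ^ (F - n) := by
      have : (s : ℝ) ^ F = (s : ℝ) ^ (F - n) * (s : ℝ) ^ n := by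
        rw [← pow_add]; congr 1; omega
      rw [this]
      field_simp
    rw [h9, abs_le]
    constructor <;> linarith

/-- near an integer the word `01` does not occur -/
lemma no_word (b : ℕ) (hb : 2 ≤ b) (y : ℝ) (t : ℕ) (m : ℤ)
    (h : |(b : ℝ) ^ t * y - m| < 1 / (b : ℝ) ^ 2) (w : Fin 2 → Fin b) (hw0 : (w 0 : ℕ) = 0)
    (hw1 : (w 1 : ℕ) = 1) :
    ¬ ∀ j : Fin 2, ⌊y * (b : ℝ) ^ (t + 1 + (j : ℕ))⌋ % b = ((w j : ℕ) : ℤ) := by
  intro hcon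
  have hbR : (2 : ℝ) ≤ b := by exact_mod_cast hb
  have hb2 : (0 : ℝ) < (b : ℝ) ^ 2 := by positivity
  set w' : ℕ → Fin b := fun j => if h : j < 2 then w ⟨j, h⟩ else ⟨0, by omega⟩ with hw'
  have h1 := (word_iff b (by omega) ((b : ℝ) ^ t * y) 2 w w' (by
    intro j
    rw [hw']
    simp [j.isLt])).1 (by
      intro j
      rw [← hcon j]
      congr 2
      ring)
  have h2 : head b w' 2 = 1 := by
    have e0 : ((w' 0 : Fin b) : ℕ) = 0 := by
      rw [hw']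
      simpa using hw0
    have e1 : ((w' 1 : Fin b) : ℕ) = 1 := by
      rw [hw']
      simpa using hw1
    simp only [head, e0, e1]
    norm_num
  rw [h2] at h1
  obtain ⟨h3, h4⟩ := h1
  push_cast at h3 h4
  rw [abs_lt] at h
  obtain ⟨h5, h6⟩ := h
  have h7 : (b : ℝ) ^ t * y = ⌊(b : ℝ) ^ t * y⌋ + Int.fract ((b : ℝ) ^ t * y) :=
    (Int.floor_add_fract _).symm
  have h8 : (1 : ℝ) / (b : ℝ) ^ 2 ≤ 1 / 4 := by
    rw [div_le_div_iff₀ hb2 (by norm_num)]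
    nlinarith
  have h9 : ((1 : ℝ) + 1) / (b : ℝ) ^ 2 = 2 * (1 / (b : ℝ) ^ 2) := by ring
  rw [h9] at h4
  have h10 : ((⌊(b : ℝ) ^ t * y⌋ - m : ℤ) : ℝ) < 1 := by push_cast; linarith
  have h11 : (-1 : ℝ) < ((⌊(b : ℝ) ^ t * y⌋ - m : ℤ) : ℝ) := by push_cast; linarith
  have h12 : ⌊(b : ℝ) ^ t * y⌋ - m = 0 := by
    have a1 : (⌊(b : ℝ) ^ t * y⌋ - m : ℤ) < 1 := by exact_mod_cast h10
    have a2 : (-1 : ℤ) < (⌊(b : ℝ) ^ t * y⌋ - m : ℤ) := by exact_mod_cast h11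
    omega
  have h13 : (⌊(b : ℝ) ^ t * y⌋ : ℝ) = m := by
    have : ⌊(b : ℝ) ^ t * y⌋ = m := by omega
    exact_mod_cast this
  linarith

theorem limit (s b : ℕ) (hs : 2 ≤ s) (hb : 2 ≤ b) : ∃ x : ℝ, ∀ y : ℝ,
    (∃ᶠ n : ℕ in atTop, ∀ i, n ≤ i → i < (2 * b) ^ (4 * s ^ n) →
      ⌊y * (s : ℝ) ^ (i + 1)⌋ % s = ⌊x * (s : ℝ) ^ (i + 1)⌋ % s) → ¬ Nrm b y := by
  refine ⟨Real.ofDigits (cc s b (by omega)), fun y hy hn => ?_⟩
  set x := Real.ofDigits (cc s b (by omega)) with hx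
  have hbR : (2 : ℝ) ≤ b := by exact_mod_cast hb
  have hsR : (2 : ℝ) ≤ s := by exact_mod_cast hs
  set K := 4 * b ^ 2 with hK
  have hK4 : 4 * b ≤ K := by rw [hK]; nlinarith
  have hK16 : 16 ≤ K := by rw [hK]; nlinarith
  set w : Fin 2 → Fin b := fun j => ⟨j, by have := j.isLt; omega⟩ with hw
  have h0 := hn 2 (by norm_num) w
  rw [Metric.tendsto_atTop] at h0
  obtain ⟨N0, hN0⟩ := h0 (1 / (4 * (b : ℝ) ^ 2)) (by positivity)
  obtain ⟨n, hn1, hn2⟩ := (hy.and_eventually (eventually_ge_atTop (N0 + 2))).exists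
  have hnF : n ≤ (2 * b) ^ (4 * s ^ n) := by
    have h1 : n < s ^ n := Nat.lt_pow_self (by omega)
    have h2 : 4 * s ^ n < (2 * b) ^ (4 * s ^ n) := Nat.lt_pow_self (by omega)
    omega
  obtain ⟨u, q, hu, hdiff⟩ := diff s hs x y n _ hnF hn1
  -- the block
  set e : ℕ := s ^ n + u with he
  have hlog : Nat.log s e = n := by
    apply Nat.log_eq_of_pow_le_of_lt_pow (by omega)
    rw [pow_succ]
    nlinarith
  have hz : zz s e = -((u : ℝ) / (s : ℝ) ^ n) := by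
    unfold zz
    rw [hlog]
    congr 3
    omega
  have hsn : n < s ^ n := Nat.lt_pow_self (by omega)
  obtain ⟨e', he'⟩ : ∃ e', e = e' + 1 := ⟨e - 1, by omega⟩
  -- size
  have hF : b * (K ^ e + 3) ≤ (2 * b) ^ (4 * s ^ n) := by
    have h1 : (2 * b) ^ (4 * s ^ n) = K ^ (2 * s ^ n) := by
      rw [hK, show 4 * s ^ n = 2 * (2 * s ^ n) by ring, pow_mul]
      congr 1
      ring
    have h2 : K ^ (e + 1) ≤ K ^ (2 * s ^ n) := Nat.pow_le_pow_right (by omega) (by omega)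
    have h3 : 1 ≤ K ^ e := Nat.one_le_pow _ _ (by omega)
    calc b * (K ^ e + 3) ≤ b * (4 * K ^ e) := Nat.mul_le_mul_left _ (by omega)
      _ = 4 * b * K ^ e := by ring
      _ ≤ K * K ^ e := Nat.mul_le_mul_right _ hK4
      _ = K ^ (e + 1) := by ring
      _ ≤ _ := h1 ▸ h2
  have hsF : (b : ℝ) ^ (K ^ e + 3) ≤ (s : ℝ) ^ ((2 * b) ^ (4 * s ^ n)) := by
    calc (b : ℝ) ^ (K ^ e + 3) ≤ ((2 : ℝ) ^ b) ^ (K ^ e + 3) := by
          gcongr
          exact_mod_cast (Nat.lt_two_pow_self (n := b)).le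
      _ = (2 : ℝ) ^ (b * (K ^ e + 3)) := by rw [← pow_mul]
      _ ≤ (s : ℝ) ^ (b * (K ^ e + 3)) := by gcongr
      _ ≤ _ := pow_le_pow_right₀ (by linarith) hF
  have hno : ∀ t, K ^ e' ≤ t → t + 4 ≤ K ^ e →
      ¬ ∀ j : Fin 2, ⌊y * (b : ℝ) ^ (t + 1 + (j : ℕ))⌋ % b = ((w j : ℕ) : ℤ) := by
    intro t ht1 ht2
    rw [he'] at ht2
    obtain ⟨m, hm⟩ := near s b hb e' t ht1 (by rw [← hK]; omega)
    rw [← hx, ← he', hz] at hm
    apply no_word b hb y t (m + (b : ℤ) ^ t * q) _ w rfl rfl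
    have h1 : (b : ℝ) ^ t * y - ((m + (b : ℤ) ^ t * q : ℤ) : ℝ) =
        ((b : ℝ) ^ t * (x - -((u : ℝ) / (s : ℝ) ^ n)) - m) +
          (b : ℝ) ^ t * (y - x - u / (s : ℝ) ^ n - q) := by
      push_cast
      ring
    rw [h1]
    have h2 : |(b : ℝ) ^ t * (y - x - u / (s : ℝ) ^ n - q)| ≤ 1 / (b : ℝ) ^ 3 := by
      rw [abs_mul, abs_of_pos (by positivity : (0 : ℝ) < (b : ℝ) ^ t)]
      calc (b : ℝ) ^ t * |y - x - u / (s : ℝ) ^ n - q|
          ≤ (b : ℝ) ^ t * (1 / (s : ℝ) ^ ((2 * b) ^ (4 * s ^ n))) := by gcongr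
        _ ≤ (b : ℝ) ^ t * (1 / (b : ℝ) ^ (K ^ e + 3)) := by gcongr
        _ ≤ (b : ℝ) ^ (K ^ e) * (1 / (b : ℝ) ^ (K ^ e + 3)) := by
            gcongr
            · linarith
            · rw [he']; omega
        _ = 1 / (b : ℝ) ^ 3 := by
            have h3 : (b : ℝ) ^ (K ^ e + 3) = (b : ℝ) ^ (K ^ e) * (b : ℝ) ^ 3 := pow_add _ _ _
            have h4 : (b : ℝ) ^ (K ^ e) ≠ 0 := by positivity
            rw [h3]
            field_simp
    have h3 : 1 / (b : ℝ) ^ ((4 * b ^ 2) ^ e - t) ≤ 1 / (b : ℝ) ^ 4 := by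
      rw [← hK]
      gcongr
      · linarith
      · rw [he']; omega
    have h4 : 1 / (b : ℝ) ^ 4 + 1 / (b : ℝ) ^ 3 < 1 / (b : ℝ) ^ 2 := by
      have h5 : 1 / (b : ℝ) ^ 4 + 1 / (b : ℝ) ^ 3 = (1 + b) / (b : ℝ) ^ 4 := by
        field_simp
      have h6 : 1 / (b : ℝ) ^ 2 = (b : ℝ) ^ 2 / (b : ℝ) ^ 4 := by field_simp
      rw [h5, h6]
      gcongr
      nlinarith
    calc _ ≤ |(b : ℝ) ^ t * (x - -((u : ℝ) / (s : ℝ) ^ n)) - m| +
          |(b : ℝ) ^ t * (y - x - u / (s : ℝ) ^ n - q)| := abs_add_le _ _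
      _ ≤ 1 / (b : ℝ) ^ 4 + 1 / (b : ℝ) ^ 3 := add_le_add (hm.trans h3) h2
      _ < _ := h4
  -- counting
  have hcount : ((range (K ^ e)).filter (fun i : ℕ => ∀ j : Fin 2,
      ⌊y * (b : ℝ) ^ (i + 1 + (j : ℕ))⌋ % b = ((w j : ℕ) : ℤ))).card ≤ K ^ e' + 4 := by
    have hsub : (range (K ^ e)).filter (fun i : ℕ => ∀ j : Fin 2,
        ⌊y * (b : ℝ) ^ (i + 1 + (j : ℕ))⌋ % b = ((w j : ℕ) : ℤ)) ⊆
        range (K ^ e') ∪ Ico (K ^ e - 4) (K ^ e) := by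
      intro i hi
      rw [mem_filter, mem_range] at hi
      rw [mem_union, mem_range, mem_Ico]
      by_contra hcon
      push Not at hcon
      obtain ⟨h1, h2⟩ := hcon
      apply hno i h1 _ hi.2
      by_contra h3
      have := h2 (by omega)
      omega
    calc _ ≤ (range (K ^ e') ∪ Ico (K ^ e - 4) (K ^ e)).card := card_le_card hsub
      _ ≤ (range (K ^ e')).card + (Ico (K ^ e - 4) (K ^ e)).card := card_union_le _ _
      _ ≤ _ := by
          rw [card_range, Nat.card_Ico]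
          omega
  have hNe : N0 ≤ K ^ e := by
    have h1 : e < K ^ e := Nat.lt_pow_self (by omega)
    omega
  have h1 := hN0 (K ^ e) hNe
  rw [Real.dist_eq, abs_lt] at h1
  have h2 := h1.1
  have hKR : (K : ℝ) = 4 * (b : ℝ) ^ 2 := by rw [hK]; push_cast; ring
  have hKe : (0 : ℝ) < ((K ^ e : ℕ) : ℝ) := by
    have : 0 < K ^ e := Nat.pow_pos (by omega)
    exact_mod_cast this
  have h3 : (((range (K ^ e)).filter (fun i : ℕ => ∀ j : Fin 2,
      ⌊y * (b : ℝ) ^ (i + 1 + (j : ℕ))⌋ % b = ((w j : ℕ) : ℤ))).card : ℝ) / ((K ^ e : ℕ) : ℝ) ≤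
      2 * (1 / (4 * (b : ℝ) ^ 2)) := by
    rw [div_le_iff₀ hKe]
    have h4 : K ^ e = K ^ e' * K := by rw [he', pow_succ]
    have h5 : (4 : ℝ) ≤ ((K ^ e' : ℕ) : ℝ) := by
      have h6 : 1 ≤ e' := by omega
      have h7 : K ^ 1 ≤ K ^ e' := Nat.pow_le_pow_right (by omega) h6
      rw [pow_one] at h7
      have h8 : 4 ≤ K ^ e' := by omega
      exact_mod_cast h8
    calc _ ≤ ((K ^ e' + 4 : ℕ) : ℝ) := by exact_mod_cast hcount
      _ = ((K ^ e' : ℕ) : ℝ) + 4 := by push_cast; ring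
      _ ≤ 2 * ((K ^ e' : ℕ) : ℝ) := by linarith
      _ = _ := by
          rw [h4]
          push_cast
          rw [hKR]
          field_simp
  have h6 : 1 / (b : ℝ) ^ 2 = 4 * (1 / (4 * (b : ℝ) ^ 2)) := by field_simp
  have h7 : (0 : ℝ) < 1 / (4 * (b : ℝ) ^ 2) := by positivity
  linarith

/-- when all primes of `s` divide `b` -/
theorem limit_zero (s b v : ℕ) (hs : 2 ≤ s) (hb : 2 ≤ b) (hv : s ∣ b ^ v) (y : ℝ)
    (hy : ∃ᶠ n : ℕ in atTop, ∀ i, n ≤ i → i < 4 * b ^ 3 * v * n →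
      ⌊y * (s : ℝ) ^ (i + 1)⌋ % s = 0) : ¬ Nrm b y := by
  intro hn
  have hbR : (2 : ℝ) ≤ b := by exact_mod_cast hb
  have hsR : (2 : ℝ) ≤ s := by exact_mod_cast hs
  obtain ⟨c, hc⟩ := hv
  have hv1 : 1 ≤ v := by
    rcases Nat.eq_zero_or_pos v with h | h
    · rw [h, pow_zero] at hc
      have := Nat.eq_one_of_mul_eq_one_right hc.symm
      omega
    · exact h
  set K := 4 * b ^ 2 with hK
  have hK16 : 16 ≤ K := by rw [hK]; nlinarith
  set w : Fin 2 → Fin b := fun j => ⟨j, by have := j.isLt; omega⟩ with hw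
  have h0 := hn 2 (by norm_num) w
  rw [Metric.tendsto_atTop] at h0
  obtain ⟨N0, hN0⟩ := h0 (1 / (4 * (b : ℝ) ^ 2)) (by positivity)
  obtain ⟨n, hn1, hn2⟩ := (hy.and_eventually (eventually_ge_atTop (N0 + 3))).exists
  set F := 4 * b ^ 3 * v * n with hF
  set N := K * (v * n) with hN
  have hFN : F = b * N := by rw [hF, hN, hK]; ring
  have hvn : n ≤ v * n := Nat.le_mul_of_pos_left _ hv1
  have hnN : 16 * (v * n) ≤ N := Nat.mul_le_mul_right _ hK16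
  have hnF : n ≤ F := by
    rw [hFN]
    have : N ≤ b * N := Nat.le_mul_of_pos_left _ (by omega)
    omega
  have hD : ∀ j < F - n, ⌊(y * (s : ℝ) ^ n) * (s : ℝ) ^ (j + 1)⌋ % s =
      (((⟨0, by omega⟩ : Fin s) : ℕ) : ℤ) := by
    intro j hj
    have h1 := hn1 (n + j) (by omega) (by omega)
    rw [mul_assoc, ← pow_add]
    exact h1
  obtain ⟨h1, h2⟩ := fract_bounds s (by omega) (y * (s : ℝ) ^ n) (fun _ => ⟨0, by omega⟩) (F - n) hD
  have hhead : ∀ m, head s (fun _ => (⟨0, by omega⟩ : Fin s)) m = 0 := by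
    intro m
    induction m with
    | zero => rfl
    | succ m ih => rw [head, ih]; simp
  rw [hhead] at h1 h2
  have hs0 : (0 : ℝ) < (s : ℝ) ^ n := by positivity
  have hsF : (b : ℝ) ^ N ≤ (s : ℝ) ^ F := by
    calc (b : ℝ) ^ N ≤ ((2 : ℝ) ^ b) ^ N := by
          gcongr
          exact_mod_cast (Nat.lt_two_pow_self (n := b)).le
      _ = (2 : ℝ) ^ F := by rw [← pow_mul, hFN]
      _ ≤ (s : ℝ) ^ F := by gcongr
  have hno : ∀ t, v * n ≤ t → t + 3 ≤ N →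
      ¬ ∀ j : Fin 2, ⌊y * (b : ℝ) ^ (t + 1 + (j : ℕ))⌋ % b = ((w j : ℕ) : ℤ) := by
    intro t ht1 ht2
    obtain ⟨r, hr⟩ : ∃ r, t = v * n + r := ⟨t - v * n, by omega⟩
    apply no_word b hb y t ((b : ℤ) ^ r * (c : ℤ) ^ n * ⌊y * (s : ℝ) ^ n⌋) _ w rfl rfl
    have h3 : (b : ℝ) ^ t = (b : ℝ) ^ r * (c : ℝ) ^ n * (s : ℝ) ^ n := by
      rw [hr, pow_add, pow_mul]
      have : (b : ℝ) ^ v = (s : ℝ) * c := by exact_mod_cast hc
      rw [this, mul_pow]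
      ring
    have h4 : (b : ℝ) ^ t * y - (((b : ℤ) ^ r * (c : ℤ) ^ n * ⌊y * (s : ℝ) ^ n⌋ : ℤ) : ℝ) =
        (b : ℝ) ^ t * (Int.fract (y * (s : ℝ) ^ n) / (s : ℝ) ^ n) := by
      push_cast
      rw [Int.fract, h3]
      field_simp
    have h0f := Int.fract_nonneg (y * (s : ℝ) ^ n)
    rw [h4, abs_of_nonneg (by positivity)]
    have h5 : Int.fract (y * (s : ℝ) ^ n) / (s : ℝ) ^ n ≤ 1 / (s : ℝ) ^ F := by
      rw [div_le_iff₀ hs0]
      have h6 : 1 / (s : ℝ) ^ F * (s : ℝ) ^ n = 1 / (s : ℝ) ^ (F - n) := by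
        have : (s : ℝ) ^ F = (s : ℝ) ^ (F - n) * (s : ℝ) ^ n := by
          rw [← pow_add]; congr 1; omega
        rw [this]
        field_simp
      rw [h6]
      simpa using h2
    calc (b : ℝ) ^ t * (Int.fract (y * (s : ℝ) ^ n) / (s : ℝ) ^ n)
        ≤ (b : ℝ) ^ t * (1 / (s : ℝ) ^ F) := by gcongr
      _ ≤ (b : ℝ) ^ t * (1 / (b : ℝ) ^ N) := by gcongr
      _ ≤ (b : ℝ) ^ t * (1 / (b : ℝ) ^ (t + 3)) := by
          gcongr
          linarith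
      _ = 1 / (b : ℝ) ^ 3 := by
          have h7 : (b : ℝ) ^ t ≠ 0 := by positivity
          rw [pow_add]
          field_simp
      _ < 1 / (b : ℝ) ^ 2 := by
          gcongr
          · linarith
          · norm_num
  have hcount : ((range N).filter (fun i : ℕ => ∀ j : Fin 2,
      ⌊y * (b : ℝ) ^ (i + 1 + (j : ℕ))⌋ % b = ((w j : ℕ) : ℤ))).card ≤ v * n + 3 := by
    have hsub : (range N).filter (fun i : ℕ => ∀ j : Fin 2,
        ⌊y * (b : ℝ) ^ (i + 1 + (j : ℕ))⌋ % b = ((w j : ℕ) : ℤ)) ⊆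
        range (v * n) ∪ Ico (N - 3) N := by
      intro i hi
      rw [mem_filter, mem_range] at hi
      rw [mem_union, mem_range, mem_Ico]
      by_contra hcon
      push Not at hcon
      obtain ⟨h1, h2⟩ := hcon
      apply hno i h1 _ hi.2
      by_contra h3
      have := h2 (by omega)
      omega
    calc _ ≤ (range (v * n) ∪ Ico (N - 3) N).card := card_le_card hsub
      _ ≤ (range (v * n)).card + (Ico (N - 3) N).card := card_union_le _ _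
      _ ≤ _ := by
          rw [card_range, Nat.card_Ico]
          omega
  have h3 := hN0 N (by omega)
  rw [Real.dist_eq, abs_lt] at h3
  have h4 := h3.1
  have hKR : (K : ℝ) = 4 * (b : ℝ) ^ 2 := by rw [hK]; push_cast; ring
  have hNpos : (0 : ℝ) < (N : ℝ) := by
    have : 0 < N := by omega
    exact_mod_cast this
  have h5 : (((range N).filter (fun i : ℕ => ∀ j : Fin 2,
      ⌊y * (b : ℝ) ^ (i + 1 + (j : ℕ))⌋ % b = ((w j : ℕ) : ℤ))).card : ℝ) / (N : ℝ) ≤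
      2 * (1 / (4 * (b : ℝ) ^ 2)) := by
    rw [div_le_iff₀ hNpos]
    have h6 : (3 : ℝ) ≤ ((v * n : ℕ) : ℝ) := by
      have h8 : 3 ≤ v * n := by omega
      exact_mod_cast h8
    calc _ ≤ ((v * n + 3 : ℕ) : ℝ) := by exact_mod_cast hcount
      _ = ((v * n : ℕ) : ℝ) + 3 := by push_cast; ring
      _ ≤ 2 * ((v * n : ℕ) : ℝ) := by linarith
      _ = _ := by
          rw [hN]
          push_cast
          rw [hKR]
          field_simp
  have h6 : 1 / (b : ℝ) ^ 2 = 4 * (1 / (4 * (b : ℝ) ^ 2)) := by field_simp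
  have h7 : (0 : ℝ) < 1 / (4 * (b : ℝ) ^ 2) := by positivity
  linarith

/-- a set without long gaps has at least logarithmically many elements -/
lemma gaps (L : ℕ) (hL : 2 ≤ L) (A : Set ℕ)
    (hA : ∀ᶠ m : ℕ in atTop, ∃ i ∈ A, m ≤ i ∧ i < L * m) :
    ∃ C : ℕ, ∀ n : ℕ, Nat.log L n ≤ {i : ℕ | i < n ∧ i ∈ A}.ncard + C := by
  obtain ⟨m1, hm1⟩ := eventually_atTop.1 hA
  set m0 := max m1 1 with hm0
  have hm : ∀ m, m0 ≤ m → ∃ i ∈ A, m ≤ i ∧ i < L * m := fun m h => hm1 m (le_trans (le_max_left _ _) h)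
  have hm01 : 1 ≤ m0 := le_max_right _ _
  have key : ∀ k n : ℕ, m0 * L ^ k ≤ n → k ≤ {i : ℕ | i < n ∧ i ∈ A}.ncard := by
    intro k
    induction k with
    | zero => intro n _; omega
    | succ k ih =>
      intro n hn
      have h1 : m0 ≤ m0 * L ^ k := Nat.le_mul_of_pos_right _ (Nat.pow_pos (by omega))
      obtain ⟨i, hiA, hi1, hi2⟩ := hm (m0 * L ^ k) h1
      have h2 := ih (m0 * L ^ k) le_rfl
      have h3 : L * (m0 * L ^ k) = m0 * L ^ (k + 1) := by ring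
      rw [h3] at hi2
      have hfin : {i : ℕ | i < n ∧ i ∈ A}.Finite := (Set.finite_Iio n).subset fun j hj => hj.1
      have h4 : insert i {j : ℕ | j < m0 * L ^ k ∧ j ∈ A} ⊆ {i : ℕ | i < n ∧ i ∈ A} := by
        intro j hj
        rcases Set.mem_insert_iff.1 hj with rfl | h
        · exact ⟨by omega, hiA⟩
        · refine ⟨?_, h.2⟩
          have := h.1
          omega
      have h5 : i ∉ {j : ℕ | j < m0 * L ^ k ∧ j ∈ A} := by
        rintro ⟨h, _⟩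
        omega
      have h6 := Set.ncard_le_ncard h4 hfin
      rw [Set.ncard_insert_of_notMem h5 ((Set.finite_Iio (m0 * L ^ k)).subset fun j hj => hj.1)] at h6
      omega
  refine ⟨m0, fun n => ?_⟩
  rcases Nat.lt_or_ge (Nat.log L n) m0 with h | h
  · omega
  have h1 : m0 * L ^ (Nat.log L n - m0) ≤ n := by
    have hn : n ≠ 0 := by
      rintro rfl
      rw [Nat.log_zero_right] at h
      omega
    calc m0 * L ^ (Nat.log L n - m0) ≤ L ^ m0 * L ^ (Nat.log L n - m0) :=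
          Nat.mul_le_mul_right _ (Nat.lt_pow_self (by omega)).le
      _ = L ^ Nat.log L n := by rw [← pow_add]; congr 1; omega
      _ ≤ n := Nat.pow_log_le_self L hn
  have h2 := key _ n h1
  omega

/-- when all primes of `s` divide `b`, at least a constant times `log n` changes are needed -/
theorem limit_count (s b : ℕ) (hs : 2 ≤ s) (hb : 2 ≤ b) (hp : ∀ p : ℕ, p.Prime → p ∣ s → p ∣ b) :
    ∃ L : ℕ, 2 ≤ L ∧ ∀ y : ℝ, (∃ᶠ n : ℕ in atTop,
      2 * {i : ℕ | i < n ∧ ⌊y * (s : ℝ) ^ (i + 1)⌋ % s ≠ 0}.ncard ≤ Nat.log L n) → ¬ Nrm b y := by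
  have hv : ∃ v, s ∣ b ^ v := by
    refine ⟨s, ?_⟩
    have hb0 : b ^ s ≠ 0 := pow_ne_zero _ (by omega)
    rw [← Nat.factorization_le_iff_dvd (by omega) hb0]
    intro q
    rw [Nat.factorization_pow, Finsupp.smul_apply, smul_eq_mul]
    by_cases hq : q.Prime ∧ q ∣ s
    · have h1 : 1 ≤ b.factorization q := (hq.1.dvd_iff_one_le_factorization (by omega)).1 (hp q hq.1 hq.2)
      have h2 : s.factorization q < s := Nat.factorization_lt _ (by omega)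
      calc s.factorization q ≤ s * 1 := by omega
        _ ≤ _ := Nat.mul_le_mul_left _ h1
    · have h3 : s.factorization q = 0 := by
        by_cases h4 : q.Prime
        · exact Nat.factorization_eq_zero_of_not_dvd fun h5 => hq ⟨h4, h5⟩
        · exact Nat.factorization_eq_zero_of_not_prime s h4
      rw [h3]
      exact Nat.zero_le _
  obtain ⟨v, hv⟩ := hv
  have hv1 : 1 ≤ v := by
    rcases Nat.eq_zero_or_pos v with h | h
    · rw [h, pow_zero] at hv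
      have := Nat.le_of_dvd (by norm_num) hv
      omega
    · exact h
  have hL : 2 ≤ 4 * b ^ 3 * v := by
    have : 1 ≤ b ^ 3 := Nat.one_le_pow _ _ (by omega)
    nlinarith
  refine ⟨4 * b ^ 3 * v, hL, fun y hy => ?_⟩
  apply limit_zero s b v hs hb hv y
  by_contra hcon
  rw [not_frequently] at hcon
  obtain ⟨C, hC⟩ := gaps (4 * b ^ 3 * v) hL {i : ℕ | ⌊y * (s : ℝ) ^ (i + 1)⌋ % s ≠ 0} (by
    filter_upwards [hcon] with m hm
    push Not at hm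
    obtain ⟨i, h1, h2, h3⟩ := hm
    exact ⟨i, h3, h1, h2⟩)
  obtain ⟨n, hn1, hn2⟩ := (hy.and_eventually
    (eventually_ge_atTop ((4 * b ^ 3 * v) ^ (2 * C + 1)))).exists
  have h1 : 2 * C + 1 ≤ Nat.log (4 * b ^ 3 * v) n := Nat.le_log_of_pow_le (by omega) hn2
  have h2 := hC n
  have h3 : {i : ℕ | i < n ∧ i ∈ {i : ℕ | ⌊y * (s : ℝ) ^ (i + 1)⌋ % s ≠ 0}} =
      {i : ℕ | i < n ∧ ⌊y * (s : ℝ) ^ (i + 1)⌋ % s ≠ 0} := rfl
  rw [h3] at h2
  omega

end Pool.Agent.Q77.Few
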